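import Pool.Agent.V11256.SC.Gr
import Pool.Agent.V11256.ST.Main
import Pool.Agent.V11231.CSR.One3

/-!
# Recognising clique graphs among split graphs with stable side of degree three
-/

set_option autoImplicit false
set_option linter.unusedSectionVars false
set_option linter.unusedVariables false

namespace Pool.Agent.V11256.SC

open Finset Pool.Agent.NPC
open Pool.Agent.V11256.ST (LG)
open Pool.Agent.V11231.CSR (One3 Ex1 hardI_One3 trf trf_iff trf_poly)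

/-- `(K, S)` is a split partition of the graph in which every vertex of `S` has degree exactly
three. -/
def Split3 (x : LG × (List ℕ × List ℕ)) : Prop :=
  (∀ v, v ∈ x.1.1 ↔ (v ∈ x.2.1 ∨ v ∈ x.2.2)) ∧ (∀ v, v ∈ x.2.1 → v ∉ x.2.2) ∧
  (∀ u v : {v : ℕ // v ∈ x.1.1}, u.1 ∈ x.2.1 → v.1 ∈ x.2.1 → u ≠ v → (ST.gr x.1).Adj u v) ∧
  (∀ u v : {v : ℕ // v ∈ x.1.1}, u.1 ∈ x.2.2 → v.1 ∈ x.2.2 → ¬ (ST.gr x.1).Adj u v) ∧
  (∀ v : {v : ℕ // v ∈ x.1.1}, v.1 ∈ x.2.2 → ((ST.gr x.1).neighborSet v).ncard = 3)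

theorem split3_red {L : TLs} (hL : PrT L) : Split3 (red L) := by
  have hK : ∀ v : {v : ℕ // v ∈ (red L).1.1}, v.1 ∈ (red L).2.1 →
      ∃ n : Kt L, v = isoG L (Sum.inl n) := by
    rintro v hv
    obtain ⟨n, hn⟩ := mem_KL.1 (show v.1 ∈ KL L from hv)
    exact ⟨n, Subtype.ext hn⟩
  have hS : ∀ v : {v : ℕ // v ∈ (red L).1.1}, v.1 ∈ (red L).2.2 →
      ∃ t : St L, v = isoG L (Sum.inr t) := by
    rintro v hv
    obtain ⟨t, ht⟩ := mem_SL.1 (show v.1 ∈ SL L from hv)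
    exact ⟨t, Subtype.ext ht⟩
  refine ⟨?_, ?_, ?_, ?_, ?_⟩
  · intro v
    change v ∈ KL L ++ SL L ↔ v ∈ KL L ∨ v ∈ SL L
    rw [List.mem_append]
  · intro v h1 h2
    obtain ⟨n, rfl⟩ := mem_KL.1 (show v ∈ KL L from h1)
    obtain ⟨t, ht⟩ := mem_SL.1 (show _ ∈ SL L from h2)
    unfold nm at ht
    omega
  · intro u v hu hv huv
    obtain ⟨n, rfl⟩ := hK u hu
    obtain ⟨n', rfl⟩ := hK v hv
    rw [(isoG L).map_adj_iff]
    exact fun e => huv (by rw [e])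
  · intro u v hu hv
    obtain ⟨t, rfl⟩ := hS u hu
    obtain ⟨t', rfl⟩ := hS v hv
    rw [(isoG L).map_adj_iff]
    exact fun h => h
  · intro v hv
    obtain ⟨t, rfl⟩ := hS v hv
    rw [← nbr_card hL t, ← Nat.card_coe_set_eq, ← Nat.card_coe_set_eq]
    exact (Nat.card_congr ((isoG L).mapNeighborSet (Sum.inr t))).symm

/-! ### Polynomial time -/

theorem k4_poly {α : Type} [TEnc α] {a b c d : α → ℕ} (ha : Poly a) (hb : Poly b) (hc : Poly c)
    (hd : Poly d) : Poly (fun x => k4 (a x) (b x) (c x) (d x)) := by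
  unfold k4
  fun_prop

theorem clT_poly : Poly (fun p : TLs × ((ℕ × ℕ × ℕ) × ℕ) => clT (9 * p.1.length) p.2) := by
  unfold clT
  have hj : Poly (fun p : TLs × ((ℕ × ℕ × ℕ) × ℕ) => 9 * p.2.2) := by fun_prop
  have hl : Poly (fun p : TLs × ((ℕ × ℕ × ℕ) × ℕ) => 9 * p.1.length) := by fun_prop
  have h1 : Poly (fun p : TLs × ((ℕ × ℕ × ℕ) × ℕ) => p.2.1.1) := by fun_prop
  have h2 : Poly (fun p : TLs × ((ℕ × ℕ × ℕ) × ℕ) => p.2.1.2.1) := by fun_prop
  have h3 : Poly (fun p : TLs × ((ℕ × ℕ × ℕ) × ℕ) => p.2.1.2.2) := by fun_prop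
  refine NPC.Poly.append ?_ (NPC.Poly.append (NPC.Poly.append ?_ ?_) ?_)
  · unfold sf
    refine NPC.Poly.map (F := fun (p : TLs × ((ℕ × ℕ × ℕ) × ℕ)) (t : ℕ × ℕ × ℕ) =>
      (9 * p.2.2 + t.1, 9 * p.2.2 + t.2.1, 9 * p.2.2 + t.2.2)) (NPC.Poly.const _) ?_
    fun_prop
  · exact k4_poly hj (by fun_prop) (by fun_prop) (by fun_prop)
  · exact k4_poly (by fun_prop) (by fun_prop) (by fun_prop) (by fun_prop)
  · exact k4_poly (by fun_prop) (by fun_prop) (by fun_prop) (by fun_prop)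

theorem tls_poly : Poly tls := by
  unfold tls
  exact NPC.Poly.flatMap (F := fun (ψ : TLs) q => clT (9 * ψ.length) q)
    (NPC.Poly.zipIdx NPC.Poly.id) clT_poly

theorem ent_poly : Poly ent := by
  unfold ent
  exact NPC.Poly.flatMap (F := fun (_ : TLs) (t : ℕ × ℕ × ℕ) => [t.1, t.2.1, t.2.2])
    NPC.Poly.id (by fun_prop)

theorem KL_poly : Poly KL := by
  unfold KL
  exact NPC.Poly.map (F := fun (_ : TLs) n => 2 * n) ent_poly (by fun_prop)

theorem nm_poly {α : Type} [TEnc α] {L : α → TLs} {t : α → ℕ × ℕ × ℕ} (hL : Poly L) (ht : Poly t) :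
    Poly (fun a => nm (L a) (t a)) := by
  unfold nm
  exact NPC.Poly.add (NPC.Poly.mul (NPC.Poly.const 2) (NPC.Poly.index hL ht)) (NPC.Poly.const 1)

theorem SL_poly : Poly SL := by
  unfold SL
  exact NPC.Poly.map (F := fun (L : TLs) t => nm L t) NPC.Poly.id
    (nm_poly (NPC.Poly.fst NPC.Poly.id) (NPC.Poly.snd NPC.Poly.id))

theorem EL_poly : Poly EL := by
  unfold EL
  refine NPC.Poly.append ?_ ?_
  · refine NPC.Poly.flatMap (F := fun (L : TLs) a => (KL L).map fun b => (a, b)) KL_poly ?_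
    exact NPC.Poly.map (F := fun (p : TLs × ℕ) b => (p.2, b)) (KL_poly.comp
      (NPC.Poly.fst NPC.Poly.id)) (by fun_prop)
  · refine NPC.Poly.flatMap (F := fun (L : TLs) t => [(nm L t, 2 * t.1), (nm L t, 2 * t.2.1),
      (nm L t, 2 * t.2.2)]) NPC.Poly.id ?_
    have h := nm_poly (α := TLs × (ℕ × ℕ × ℕ)) (L := fun p => p.1) (t := fun p => p.2)
      (NPC.Poly.fst NPC.Poly.id) (NPC.Poly.snd NPC.Poly.id)
    exact NPC.Poly.cons (NPC.Poly.pair h (by fun_prop)) (NPC.Poly.cons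
      (NPC.Poly.pair h (by fun_prop)) (NPC.Poly.cons (NPC.Poly.pair h (by fun_prop))
      (NPC.Poly.const _)))

theorem red_poly : Poly red := by
  unfold red
  exact NPC.Poly.pair (NPC.Poly.pair (NPC.Poly.append KL_poly SL_poly) EL_poly)
    (NPC.Poly.pair KL_poly SL_poly)

/-! ### Hardness -/

theorem hardPr_One3ne : HardPr (fun ψ : TLs => ψ ≠ []) One3 :=
  hardI_SAT3.toHardPr.trans trf_poly (fun φ _ => by unfold trf; simp) (fun φ _ => trf_iff φ)

theorem one3_iff (ψ : TLs) : One3 ψ ↔ O3 ψ := by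
  have hx : ∀ a b c : Bool, Ex1 a b c ↔ X1 (a = true) (b = true) (c = true) := by
    intro a b c
    unfold Ex1 X1
    cases a <;> cases b <;> cases c <;> simp
  constructor
  · rintro ⟨τ, hτ⟩
    exact ⟨fun x => τ x = true, fun c hc => (hx _ _ _).1 (hτ c hc)⟩
  · rintro ⟨τ, hτ⟩
    classical
    refine ⟨fun x => decide (τ x), fun c hc => (hx _ _ _).2 ?_⟩
    simpa using hτ c hc

theorem hardPr_clique : HardPr Split3 (fun x : LG × (List ℕ × List ℕ) =>
    IsCliqueGraph (ST.gr x.1)) := by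
  refine hardPr_One3ne.trans (f := fun ψ => red (tls ψ)) (red_poly.comp tls_poly)
    (fun ψ hψ => split3_red (prT_tls hψ)) (fun ψ hψ => ?_)
  rw [one3_iff, ← pairP_iff, ← clique_iff (prT_tls hψ)]
  exact ⟨fun h => h.of_iso (isoG _), fun h => h.of_iso (isoG _).symm⟩

end Pool.Agent.V11256.SC
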