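import Mathlib

/-!
# Lists of triples
-/

set_option autoImplicit false
set_option linter.unusedSectionVars false
set_option linter.unusedVariables false

namespace Pool.Agent.V11256.SC

/-- Lists of triples. -/
abbrev TLs : Type := List (ℕ × ℕ × ℕ)

/-- Exactly one of three. -/
def X1 (p q r : Prop) : Prop := (p ∧ ¬ q ∧ ¬ r) ∨ (¬ p ∧ q ∧ ¬ r) ∨ (¬ p ∧ ¬ q ∧ r)

/-- The problem of the pairs. -/
def PairP (L : TLs) : Prop :=
  ∃ R : ℕ → ℕ → Prop, ∀ t ∈ L, X1 (R t.1 t.2.1) (R t.2.1 t.2.2) (R t.1 t.2.2)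

/-- The pair is contained in a triple of the list. -/
def Sh (L : TLs) (x y : ℕ) : Prop := ∃ t ∈ L, (x = t.1 ∨ x = t.2.1 ∨ x = t.2.2) ∧
  (y = t.1 ∨ y = t.2.1 ∨ y = t.2.2)

/-- The promise. -/
def PrT (L : TLs) : Prop := (∀ t ∈ L, t.1 < t.2.1 ∧ t.2.1 < t.2.2) ∧
  (∀ t ∈ L, ∃ t' ∈ L, ∃ d, (d = t'.1 ∨ d = t'.2.1 ∨ d = t'.2.2) ∧
    d ≠ t.1 ∧ d ≠ t.2.1 ∧ d ≠ t.2.2) ∧ L ≠ [] ∧
  ∀ x y z, x < y → y < z → Sh L x y → Sh L y z → Sh L x z → (x, y, z) ∈ L

/-- The triples of a `K_4`. -/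
def k4 (a b c d : ℕ) : TLs := [(a, b, c), (a, b, d), (a, c, d), (b, c, d)]

/-- The triples of a clause, without the hubs: offsets from `9 j`. -/
def base : TLs := (2, 5, 8) :: (k4 0 1 2 5 ++ k4 3 4 5 8 ++ k4 2 6 7 8)

/-- Shift. -/
def sf (n : ℕ) (t : ℕ × ℕ × ℕ) : ℕ × ℕ × ℕ := (n + t.1, n + t.2.1, n + t.2.2)

/-- The triples of a clause. -/
def clT (L : ℕ) (q : (ℕ × ℕ × ℕ) × ℕ) : TLs :=
  base.map (sf (9 * q.2)) ++
    (k4 (9 * q.2) (9 * q.2 + 1) (L + 2 * q.1.1) (L + 2 * q.1.1 + 1) ++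
    k4 (9 * q.2 + 3) (9 * q.2 + 4) (L + 2 * q.1.2.1) (L + 2 * q.1.2.1 + 1) ++
    k4 (9 * q.2 + 6) (9 * q.2 + 7) (L + 2 * q.1.2.2) (L + 2 * q.1.2.2 + 1))

/-- All the triples. -/
def tls (ψ : TLs) : TLs := ψ.zipIdx.flatMap (clT (9 * ψ.length))

theorem mem_zip {ψ : TLs} {c : ℕ × ℕ × ℕ} {j : ℕ} (h : (c, j) ∈ ψ.zipIdx) :
    j < ψ.length ∧ ψ[j]? = some c := by
  rw [List.mem_zipIdx_iff_getElem?] at h
  simp only at h
  exact ⟨(List.getElem?_eq_some_iff.1 h).1, h⟩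

theorem mem_tls {ψ : TLs} {t : ℕ × ℕ × ℕ} : t ∈ tls ψ ↔ ∃ j c, j < ψ.length ∧ ψ[j]? = some c ∧
    t ∈ clT (9 * ψ.length) (c, j) := by
  unfold tls
  rw [List.mem_flatMap]
  constructor
  · rintro ⟨⟨c, j⟩, h1, h2⟩
    obtain ⟨h3, h4⟩ := mem_zip h1
    exact ⟨j, c, h3, h4, h2⟩
  · rintro ⟨j, c, h1, h2, h3⟩
    exact ⟨(c, j), List.mem_zipIdx_iff_getElem?.2 h2, h3⟩

/-- One position: the hub triples. -/
def hubT (L n x : ℕ) : TLs := k4 n (n + 1) (L + 2 * x) (L + 2 * x + 1)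

theorem mem_clT {L : ℕ} {q : (ℕ × ℕ × ℕ) × ℕ} {t : ℕ × ℕ × ℕ} : t ∈ clT L q ↔
    t ∈ base.map (sf (9 * q.2)) ∨ t ∈ hubT L (9 * q.2) q.1.1 ∨
    t ∈ hubT L (9 * q.2 + 3) q.1.2.1 ∨ t ∈ hubT L (9 * q.2 + 6) q.1.2.2 := by
  unfold clT hubT
  simp only [List.mem_append, or_assoc]

theorem mem_k4 {a b c d : ℕ} {t : ℕ × ℕ × ℕ} : t ∈ k4 a b c d ↔
    t = (a, b, c) ∨ t = (a, b, d) ∨ t = (a, c, d) ∨ t = (b, c, d) := by
  unfold k4; simp

/-! ### From an assignment to pairs -/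

theorem X1_k4 {R : ℕ → ℕ → Prop} {a b c d : ℕ} (h : ∀ t ∈ k4 a b c d,
    X1 (R t.1 t.2.1) (R t.2.1 t.2.2) (R t.1 t.2.2)) :
    (R a b ↔ R c d) ∧ (R a c ↔ R b d) ∧ (R a d ↔ R b c) := by
  have h1 := h (a, b, c) (mem_k4.2 (Or.inl rfl))
  have h2 := h (a, b, d) (mem_k4.2 (Or.inr (Or.inl rfl)))
  have h3 := h (a, c, d) (mem_k4.2 (Or.inr (Or.inr (Or.inl rfl))))
  have h4 := h (b, c, d) (mem_k4.2 (Or.inr (Or.inr (Or.inr rfl))))
  simp only [X1] at h1 h2 h3 h4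
  refine ⟨?_, ?_, ?_⟩ <;> tauto

/-- One-in-three satisfiability. -/
def O3 (ψ : TLs) : Prop := ∃ τ : ℕ → Prop, ∀ c ∈ ψ, X1 (τ c.1) (τ c.2.1) (τ c.2.2)

theorem o3_of_pairP {ψ : TLs} (h : PairP (tls ψ)) : O3 ψ := by
  obtain ⟨R, hR⟩ := h
  set L := 9 * ψ.length with hL
  refine ⟨fun x => R (L + 2 * x) (L + 2 * x + 1), fun c hc => ?_⟩
  obtain ⟨j, hj, hjc⟩ := List.getElem_of_mem hc
  have hjc' : ψ[j]? = some c := by rw [← hjc]; exact List.getElem?_eq_getElem hj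
  have hmem : ∀ t, t ∈ clT L (c, j) → X1 (R t.1 t.2.1) (R t.2.1 t.2.2) (R t.1 t.2.2) :=
    fun t ht => hR t (mem_tls.2 ⟨j, c, hj, hjc', ht⟩)
  have hb : ∀ a b c' d : ℕ, (∀ t ∈ k4 a b c' d, t ∈ base) →
      (R (9 * j + a) (9 * j + b) ↔ R (9 * j + c') (9 * j + d)) ∧
      (R (9 * j + a) (9 * j + c') ↔ R (9 * j + b) (9 * j + d)) ∧
      (R (9 * j + a) (9 * j + d) ↔ R (9 * j + b) (9 * j + c')) := by
    intro a b c' d hk
    refine X1_k4 fun t ht => hmem t (mem_clT.2 (Or.inl ?_))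
    rw [mem_k4] at ht
    rcases ht with rfl | rfl | rfl | rfl
    · exact List.mem_map.2 ⟨(a, b, c'), hk _ (mem_k4.2 (by simp)), rfl⟩
    · exact List.mem_map.2 ⟨(a, b, d), hk _ (mem_k4.2 (by simp)), rfl⟩
    · exact List.mem_map.2 ⟨(a, c', d), hk _ (mem_k4.2 (by simp)), rfl⟩
    · exact List.mem_map.2 ⟨(b, c', d), hk _ (mem_k4.2 (by simp)), rfl⟩
  have b0 := (hb 0 1 2 5 (by decide)).1
  have b1 := (hb 3 4 5 8 (by decide)).1
  have b2 := (hb 2 6 7 8 (by decide)).2.2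
  have h0 := (X1_k4 (R := R) fun t ht => hmem t (mem_clT.2 (Or.inr (Or.inl ht)))).1
  have h1 := (X1_k4 (R := R) fun t ht => hmem t (mem_clT.2 (Or.inr (Or.inr (Or.inl ht))))).1
  have h2 := (X1_k4 (R := R) fun t ht => hmem t (mem_clT.2 (Or.inr (Or.inr (Or.inr ht))))).1
  have hc' := hmem (sf (9 * j) (2, 5, 8)) (mem_clT.2 (Or.inl (List.mem_map.2
    ⟨(2, 5, 8), by decide, rfl⟩)))
  simp only [sf] at hc'
  simp only [add_zero] at b0
  have e1 : 9 * j + 3 + 1 = 9 * j + 4 := rfl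
  have e2 : 9 * j + 6 + 1 = 9 * j + 7 := rfl
  rw [e1] at h1
  rw [e2] at h2
  simp only [X1] at hc' ⊢
  tauto

/-- The variable at a position. -/
def pos (c : ℕ × ℕ × ℕ) (i : ℕ) : ℕ := if i = 0 then c.1 else if i = 1 then c.2.1 else c.2.2

theorem mem_clT' {L j : ℕ} {c t : ℕ × ℕ × ℕ} : t ∈ clT L (c, j) ↔
    (∃ u ∈ base, t = sf (9 * j) u) ∨ ∃ i < 3, t ∈ hubT L (9 * j + 3 * i) (pos c i) := by
  rw [mem_clT, List.mem_map]
  constructor
  · rintro (⟨u, hu, rfl⟩ | h | h | h)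
    · exact Or.inl ⟨u, hu, rfl⟩
    · exact Or.inr ⟨0, by norm_num, h⟩
    · exact Or.inr ⟨1, by norm_num, h⟩
    · exact Or.inr ⟨2, by norm_num, h⟩
  · rintro (⟨u, hu, rfl⟩ | ⟨i, hi, h⟩)
    · exact Or.inl ⟨u, hu, rfl⟩
    · right
      interval_cases i
      · exact Or.inl h
      · exact Or.inr (Or.inl h)
      · exact Or.inr (Or.inr h)

/-- The pairs inside a block. -/
def blk (t0 t1 t2 : Prop) (r r' : ℕ) : Prop :=
  ((r = 0 ∧ r' = 1 ∨ r = 2 ∧ r' = 5) ∧ t0) ∨ ((r = 3 ∧ r' = 4 ∨ r = 5 ∧ r' = 8) ∧ t1) ∨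
  ((r = 6 ∧ r' = 7 ∨ r = 2 ∧ r' = 8) ∧ t2) ∨ ((r = 0 ∧ r' = 2 ∨ r = 1 ∧ r' = 5) ∧ ¬ t0) ∨
  ((r = 3 ∧ r' = 5 ∨ r = 4 ∧ r' = 8) ∧ ¬ t1) ∨ ((r = 2 ∧ r' = 6 ∨ r = 7 ∧ r' = 8) ∧ ¬ t2)

theorem blk_base {t0 t1 t2 : Prop} (h : X1 t0 t1 t2) : ∀ u ∈ base,
    X1 (blk t0 t1 t2 u.1 u.2.1) (blk t0 t1 t2 u.2.1 u.2.2) (blk t0 t1 t2 u.1 u.2.2) := by
  intro u hu
  unfold base at hu
  simp only [List.mem_cons, List.mem_append, mem_k4] at hu
  rcases hu with rfl | ((rfl | rfl | rfl | rfl) | (rfl | rfl | rfl | rfl)) |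
    (rfl | rfl | rfl | rfl)
  · simpa [blk] using h
  all_goals
    simp only [blk, X1]
    norm_num
    try tauto

/-- The pairs. -/
def RR (L : ℕ) (v : ℕ → ℕ → ℕ) (τ : ℕ → Prop) (a b : ℕ) : Prop :=
  if b < L then blk (τ (v (a / 9) 0)) (τ (v (a / 9) 1)) (τ (v (a / 9) 2)) (a % 9) (b % 9)
  else if a < L then (a % 3 = 0 ∧ (b - L) % 2 = 0 ∨ a % 3 = 1 ∧ (b - L) % 2 = 1) ∧
    ¬ τ ((b - L) / 2)
  else τ ((a - L) / 2)

theorem pairP_of_o3 {ψ : TLs} (h : O3 ψ) : PairP (tls ψ) := by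
  obtain ⟨τ, hτ⟩ := h
  set L := 9 * ψ.length with hL
  set v : ℕ → ℕ → ℕ := fun j i => pos (ψ.getD j (0, 0, 0)) i with hv
  refine ⟨RR L v τ, fun t ht => ?_⟩
  obtain ⟨j, c, hj, hjc, ht⟩ := mem_tls.1 ht
  have hc : c ∈ ψ := List.mem_of_getElem? hjc
  have hvc : ∀ i, v j i = pos c i := by
    intro i
    simp only [hv]
    rw [List.getD_eq_getElem?_getD, hjc]
    rfl
  have hx := hτ c hc
  have hblk : ∀ r r', r < 9 → r' < 9 → RR L v τ (9 * j + r) (9 * j + r') =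
      blk (τ c.1) (τ c.2.1) (τ c.2.2) r r' := by
    intro r r' hr hr'
    unfold RR
    have h1 : (9 * j + r) / 9 = j := by omega
    have h2 : (9 * j + r) % 9 = r := by omega
    have h3 : (9 * j + r') % 9 = r' := by omega
    rw [if_pos (by omega), h1, h2, h3, hvc, hvc, hvc]
    rfl
  rcases mem_clT'.1 ht with ⟨u, hu, rfl⟩ | ⟨i, hi, ht⟩
  · have h9 : ∀ u ∈ base, u.1 < 9 ∧ u.2.1 < 9 ∧ u.2.2 < 9 := by decide
    obtain ⟨h1, h2, h3⟩ := h9 u hu
    simp only [sf]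
    rw [hblk _ _ h1 h2, hblk _ _ h2 h3, hblk _ _ h1 h3]
    exact blk_base hx u hu
  · have hLj : 9 * j + 9 ≤ L := by omega
    set x := pos c i with hxd
    -- the values of the pairs
    have q1 : RR L v τ (9 * j + 3 * i) (9 * j + 3 * i + 1) = τ x := by
      have := hblk (3 * i) (3 * i + 1) (by omega) (by omega)
      rw [← add_assoc] at this
      rw [this]
      interval_cases i <;> simp [blk, hxd, pos]
    have ev : (L + 2 * x - L) % 2 = 0 := by omega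
    have od : (L + 2 * x + 1 - L) % 2 = 1 := by omega
    have dv : (L + 2 * x - L) / 2 = x := by omega
    have dv' : (L + 2 * x + 1 - L) / 2 = x := by omega
    have a0 : (9 * j + 3 * i) % 3 = 0 := by omega
    have a1 : (9 * j + 3 * i + 1) % 3 = 1 := by omega
    have q2 : RR L v τ (9 * j + 3 * i) (L + 2 * x) = ¬ τ x := by
      unfold RR
      rw [if_neg (by omega), if_pos (by omega), ev, dv, a0]; simp
    have q3 : RR L v τ (9 * j + 3 * i) (L + 2 * x + 1) = False := by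
      unfold RR
      rw [if_neg (by omega), if_pos (by omega), od, dv', a0]; simp
    have q4 : RR L v τ (9 * j + 3 * i + 1) (L + 2 * x) = False := by
      unfold RR
      rw [if_neg (by omega), if_pos (by omega), ev, dv, a1]; simp
    have q5 : RR L v τ (9 * j + 3 * i + 1) (L + 2 * x + 1) = ¬ τ x := by
      unfold RR
      rw [if_neg (by omega), if_pos (by omega), od, dv', a1]; simp
    have q6 : RR L v τ (L + 2 * x) (L + 2 * x + 1) = τ x := by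
      unfold RR
      rw [if_neg (by omega), if_neg (by omega), dv]
    unfold hubT at ht
    rw [mem_k4] at ht
    rcases ht with rfl | rfl | rfl | rfl <;> simp only [q1, q2, q3, q4, q5, q6, X1] <;> tauto

theorem pairP_iff (ψ : TLs) : PairP (tls ψ) ↔ O3 ψ := ⟨o3_of_pairP, pairP_of_o3⟩

/-! ### The promise -/

/-- Shadow of the base. -/
def shb (r r' : ℕ) : Bool := base.any fun u => (decide (r = u.1) || decide (r = u.2.1) ||
  decide (r = u.2.2)) && (decide (r' = u.1) || decide (r' = u.2.1) || decide (r' = u.2.2))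

theorem base_tri_aux : ∀ r r' s : Fin 9, (decide (r.1 < r'.1) && decide (r'.1 < s.1) &&
    shb r.1 r'.1 && shb r'.1 s.1 && shb r.1 s.1) = true → (r.1, r'.1, s.1) ∈ base := by
  decide

theorem base_tri {r r' s : ℕ} (hr : r < 9) (hr' : r' < 9) (hs : s < 9) (h1 : r < r') (h2 : r' < s)
    (h3 : shb r r' = true) (h4 : shb r' s = true) (h5 : shb r s = true) : (r, r', s) ∈ base :=
  base_tri_aux ⟨r, hr⟩ ⟨r', hr'⟩ ⟨s, hs⟩ (by simp [h1, h2, h3, h4, h5])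

theorem base_pair_aux : ∀ i i' : Fin 3, ∀ b b' : Fin 2,
    (decide (3 * i.1 + b.1 < 3 * i'.1 + b'.1) && shb (3 * i.1 + b.1) (3 * i'.1 + b'.1)) = true →
    (decide (i.1 = i'.1) && decide (b.1 = 0) && decide (b'.1 = 1)) = true := by
  decide

theorem base_pair {i i' b b' : ℕ} (hi : i < 3) (hi' : i' < 3) (hb : b < 2) (hb' : b' < 2)
    (h1 : 3 * i + b < 3 * i' + b') (h2 : shb (3 * i + b) (3 * i' + b') = true) :
    i = i' ∧ b = 0 ∧ b' = 1 := by
  have := base_pair_aux ⟨i, hi⟩ ⟨i', hi'⟩ ⟨b, hb⟩ ⟨b', hb'⟩ (by simp [h1, h2])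
  simp only [Bool.and_eq_true, decide_eq_true_eq] at this
  exact ⟨this.1.1, this.1.2, this.2⟩

theorem shb_of_mem {u : ℕ × ℕ × ℕ} (hu : u ∈ base) {r r' : ℕ}
    (h : r = u.1 ∨ r = u.2.1 ∨ r = u.2.2) (h' : r' = u.1 ∨ r' = u.2.1 ∨ r' = u.2.2) :
    shb r r' = true := by
  unfold shb
  rw [List.any_eq_true]
  refine ⟨u, hu, ?_⟩
  simp only [Bool.and_eq_true, Bool.or_eq_true, decide_eq_true_eq, or_assoc]
  exact ⟨h, h'⟩

/-- The three kinds of pairs. -/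
theorem sh_cases {ψ : TLs} {x y : ℕ} (hxy : x < y) (h : Sh (tls ψ) x y) :
    (∃ j r r', j < ψ.length ∧ r < r' ∧ r' < 9 ∧ x = 9 * j + r ∧ y = 9 * j + r' ∧
      shb r r' = true) ∨
    (∃ j c i b b', j < ψ.length ∧ ψ[j]? = some c ∧ i < 3 ∧ b < 2 ∧ b' < 2 ∧
      x = 9 * j + 3 * i + b ∧ y = 9 * ψ.length + 2 * pos c i + b') ∨
    (∃ v, x = 9 * ψ.length + 2 * v ∧ y = 9 * ψ.length + 2 * v + 1) := by
  obtain ⟨t, ht, h1, h2⟩ := h
  obtain ⟨j, c, hj, hjc, ht⟩ := mem_tls.1 ht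
  rcases mem_clT'.1 ht with ⟨u, hu, rfl⟩ | ⟨i, hi, ht⟩
  · left
    have h9 : ∀ u ∈ base, u.1 < 9 ∧ u.2.1 < 9 ∧ u.2.2 < 9 := by decide
    obtain ⟨g1, g2, g3⟩ := h9 u hu
    simp only [sf] at h1 h2
    refine ⟨j, x - 9 * j, y - 9 * j, hj, by omega, by omega, by omega, by omega, ?_⟩
    refine shb_of_mem hu ?_ ?_
    · omega
    · omega
  · unfold hubT at ht
    rw [mem_k4] at ht
    have hs : shb (3 * i) (3 * i + 1) = true := by
      interval_cases i <;> decide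
    have hx : x = 9 * j + 3 * i ∨ x = 9 * j + 3 * i + 1 ∨ x = 9 * ψ.length + 2 * pos c i ∨
        x = 9 * ψ.length + 2 * pos c i + 1 := by
      rcases ht with rfl | rfl | rfl | rfl <;> simp only at h1 <;> omega
    have hy : y = 9 * j + 3 * i ∨ y = 9 * j + 3 * i + 1 ∨ y = 9 * ψ.length + 2 * pos c i ∨
        y = 9 * ψ.length + 2 * pos c i + 1 := by
      rcases ht with rfl | rfl | rfl | rfl <;> simp only at h2 <;> omega
    rcases hx with hx | hx | hx | hx <;> rcases hy with hy | hy | hy | hy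
    · omega
    · left
      exact ⟨j, 3 * i, 3 * i + 1, hj, by omega, by omega, by omega, by omega, hs⟩
    · right; left
      exact ⟨j, c, i, 0, 0, hj, hjc, hi, by norm_num, by norm_num, by omega, by omega⟩
    · right; left
      exact ⟨j, c, i, 0, 1, hj, hjc, hi, by norm_num, by norm_num, by omega, by omega⟩
    · omega
    · omega
    · right; left
      exact ⟨j, c, i, 1, 0, hj, hjc, hi, by norm_num, by norm_num, by omega, by omega⟩
    · right; left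
      exact ⟨j, c, i, 1, 1, hj, hjc, hi, by norm_num, by norm_num, by omega, by omega⟩
    · omega
    · omega
    · omega
    · right; right
      exact ⟨pos c i, hx, hy⟩
    · omega
    · omega
    · omega
    · omega

theorem prT_tls {ψ : TLs} (hψ : ψ ≠ []) : PrT (tls ψ) := by
  refine ⟨?_, ?_, ?_, ?_⟩
  · intro t ht
    obtain ⟨j, c, hj, hjc, ht⟩ := mem_tls.1 ht
    rcases mem_clT'.1 ht with ⟨u, hu, rfl⟩ | ⟨i, hi, ht⟩
    · have h9 : ∀ u ∈ base, u.1 < u.2.1 ∧ u.2.1 < u.2.2 := by decide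
      obtain ⟨g1, g2⟩ := h9 u hu
      simp only [sf]
      omega
    · unfold hubT at ht
      rw [mem_k4] at ht
      rcases ht with rfl | rfl | rfl | rfl <;> simp only <;> omega
  · intro t ht
    obtain ⟨j, c, hj, hjc, ht'⟩ := mem_tls.1 ht
    have hb : ∀ u ∈ base, sf (9 * j) u ∈ tls ψ := fun u hu =>
      mem_tls.2 ⟨j, c, hj, hjc, mem_clT'.2 (Or.inl ⟨u, hu, rfl⟩)⟩
    have m1 := hb (0, 1, 2) (by decide)
    have m2 := hb (0, 1, 5) (by decide)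
    simp only [sf] at m1 m2
    by_contra hn
    push Not at hn
    have n1 := hn _ m1 (9 * j + 0) (by simp)
    have n2 := hn _ m1 (9 * j + 1) (by simp)
    have n3 := hn _ m1 (9 * j + 2) (by simp)
    have n4 := hn _ m2 (9 * j + 5) (by simp)
    by_cases a1 : 9 * j + 0 = t.1 <;> by_cases a2 : 9 * j + 0 = t.2.1 <;>
    by_cases b1 : 9 * j + 1 = t.1 <;> by_cases b2 : 9 * j + 1 = t.2.1 <;>
    by_cases c1 : 9 * j + 2 = t.1 <;> by_cases c2 : 9 * j + 2 = t.2.1 <;>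
    by_cases d1 : 9 * j + 5 = t.1 <;> by_cases d2 : 9 * j + 5 = t.2.1 <;>
    first
      | omega
      | (have n1' := n1 a1 a2; omega)
      | (have n2' := n2 b1 b2; omega)
      | (have n3' := n3 c1 c2; omega)
  · obtain ⟨c, ψ', rfl⟩ := List.exists_cons_of_ne_nil hψ
    intro h
    have : sf (9 * 0) (2, 5, 8) ∈ tls (c :: ψ') := mem_tls.2 ⟨0, c, by simp, by simp,
      mem_clT'.2 (Or.inl ⟨(2, 5, 8), by decide, rfl⟩)⟩
    rw [h] at this
    simp at this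
  · intro x y z hxy hyz h1 h2 h3
    rcases sh_cases hxy h1 with ⟨j, r, r', hj, hr, hr', e1, e2, s1⟩ |
      ⟨j, c, i, b, b', hj, hjc, hi, hb, hb', e1, e2⟩ | ⟨v, e1, e2⟩
    · rcases sh_cases hyz h2 with ⟨j2, q, q', hj2, hq, hq', e3, e4, s2⟩ |
        ⟨j2, c2, i2, b2, b2', hj2, hjc2, hi2, hb2, hb2', e3, e4⟩ | ⟨v, e3, e4⟩
      · rcases sh_cases (hxy.trans hyz) h3 with ⟨j3, p, p', hj3, hp, hp', e5, e6, s3⟩ |
          ⟨j3, c3, i3, b3, b3', hj3, hjc3, hi3, hb3, hb3', e5, e6⟩ | ⟨v, e5, e6⟩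
        · have f1 : j2 = j := by omega
          have f2 : j3 = j := by omega
          subst f1
          subst f2
          have f3 : q = r' := by omega
          have f4 : p = r := by omega
          have f5 : p' = q' := by omega
          subst f3 f4 f5
          have hm := base_tri (r := p) (r' := q) (s := p') (by omega) (by omega) hp' hr (by omega) s1 s2 s3
          have hl : ψ[j3]? = some ψ[j3] := List.getElem?_eq_getElem hj3
          refine mem_tls.2 ⟨j3, ψ[j3], hj3, hl, mem_clT'.2 (Or.inl ⟨_, hm, ?_⟩)⟩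
          simp only [sf]
          rw [e1, e2, e4]
        · omega
        · omega
      · rcases sh_cases (hxy.trans hyz) h3 with ⟨j3, p, p', hj3, hp, hp', e5, e6, s3⟩ |
          ⟨j3, c3, i3, b3, b3', hj3, hjc3, hi3, hb3, hb3', e5, e6⟩ | ⟨v, e5, e6⟩
        · omega
        · have f1 : j2 = j := by omega
          have f2 : j3 = j := by omega
          subst f1
          subst f2
          have f3 : r = 3 * i3 + b3 := by omega
          have f4 : r' = 3 * i2 + b2 := by omega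
          rw [f3, f4] at s1
          obtain ⟨g1, g2, g3⟩ := base_pair hi3 hi2 hb3 hb2 (by omega) s1
          subst g1 g2 g3
          refine mem_tls.2 ⟨j3, c2, hj3, hjc2, mem_clT'.2 (Or.inr ⟨i3, hi3, ?_⟩)⟩
          unfold hubT
          rw [mem_k4]
          have hb2c : b2' = 0 ∨ b2' = 1 := by omega
          rcases hb2c with h | h
          · left
            rw [e5, e3, e4, h]; rfl
          · right; left
            rw [e5, e3, e4, h]; rfl
        · omega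
      · omega
    · rcases sh_cases hyz h2 with ⟨j2, q, q', hj2, hq, hq', e3, e4, s2⟩ |
        ⟨j2, c2, i2, b2, b2', hj2, hjc2, hi2, hb2, hb2', e3, e4⟩ | ⟨v, e3, e4⟩
      · omega
      · omega
      · refine mem_tls.2 ⟨j, c, hj, hjc, mem_clT'.2 (Or.inr ⟨i, hi, ?_⟩)⟩
        unfold hubT
        rw [mem_k4]
        have hv : v = pos c i := by omega
        have hbc : b = 0 ∨ b = 1 := by omega
        rcases hbc with h | h
        · right; right; left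
          rw [e1, e3, e4, h, hv]; rfl
        · right; right; right
          rw [e1, e3, e4, h, hv]
    · rcases sh_cases hyz h2 with ⟨j2, q, q', hj2, hq, hq', e3, e4, s2⟩ |
        ⟨j2, c2, i2, b2, b2', hj2, hjc2, hi2, hb2, hb2', e3, e4⟩ | ⟨v, e3, e4⟩
      · omega
      · omega
      · omega

end Pool.Agent.V11256.SC
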