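import Pool.Agent.V11256.SC.Split
import Pool.Agent.V11256.SC.Tri
import Pool.Agent.V11256.ST.Mem
import Pool.Agent.NPC.Sat

/-!
# The split graph of a list of triples
-/

set_option autoImplicit false
set_option linter.unusedSectionVars false
set_option linter.unusedVariables false

namespace Pool.Agent.V11256.SC

open Finset Pool.Agent.NPC
open Pool.Agent.V11256.ST (LG)

/-- The numbers in the triples. -/
def ent (L : TLs) : List ℕ := L.flatMap fun t => [t.1, t.2.1, t.2.2]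

theorem mem_ent {L : TLs} {n : ℕ} : n ∈ ent L ↔ ∃ t ∈ L, n = t.1 ∨ n = t.2.1 ∨ n = t.2.2 := by
  unfold ent
  rw [List.mem_flatMap]
  simp

/-- The clique side. -/
abbrev Kt (L : TLs) : Type := {n : ℕ // n ∈ ent L}
/-- The stable side. -/
abbrev St (L : TLs) : Type := {t : ℕ × ℕ × ℕ // t ∈ L}

/-- Neighbours. -/
def Nt (L : TLs) (t : St L) : Finset (Kt L) :=
  {⟨t.1.1, mem_ent.2 ⟨_, t.2, Or.inl rfl⟩⟩, ⟨t.1.2.1, mem_ent.2 ⟨_, t.2, Or.inr (Or.inl rfl)⟩⟩,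
    ⟨t.1.2.2, mem_ent.2 ⟨_, t.2, Or.inr (Or.inr rfl)⟩⟩}

theorem mem_Nt {L : TLs} {t : St L} {n : Kt L} : n ∈ Nt L t ↔
    n.1 = t.1.1 ∨ n.1 = t.1.2.1 ∨ n.1 = t.1.2.2 := by
  unfold Nt
  simp only [mem_insert, mem_singleton, Subtype.ext_iff]

section

variable {L : TLs} (hL : PrT L)

include hL

theorem Nt_card (t : St L) : (Nt L t).card = 3 := by
  obtain ⟨h1, h2⟩ := hL.1 t.1 t.2
  unfold Nt
  rw [card_eq_three]
  refine ⟨_, _, _, ?_, ?_, ?_, rfl⟩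
  · intro e; have := congrArg Subtype.val e; simp only at this; omega
  · intro e; have := congrArg Subtype.val e; simp only at this; omega
  · intro e; have := congrArg Subtype.val e; simp only at this; omega

theorem Nt_inj : Function.Injective (Nt L) := by
  intro t t' h
  obtain ⟨h1, h2⟩ := hL.1 t.1 t.2
  obtain ⟨h3, h4⟩ := hL.1 t'.1 t'.2
  have key : ∀ n : ℕ, (n = t.1.1 ∨ n = t.1.2.1 ∨ n = t.1.2.2) →
      (n = t'.1.1 ∨ n = t'.1.2.1 ∨ n = t'.1.2.2) := by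
    intro n hn
    have : (⟨n, mem_ent.2 ⟨_, t.2, hn⟩⟩ : Kt L) ∈ Nt L t := mem_Nt.2 hn
    rw [h] at this
    exact mem_Nt.1 this
  have k1 := key t.1.1 (Or.inl rfl)
  have k2 := key t.1.2.1 (Or.inr (Or.inl rfl))
  have k3 := key t.1.2.2 (Or.inr (Or.inr rfl))
  apply Subtype.ext
  obtain ⟨⟨a, b, c⟩, ht⟩ := t
  obtain ⟨⟨a', b', c'⟩, ht'⟩ := t'
  simp only at *
  have e1 : a = a' := by omega
  have e2 : b = b' := by omega
  have e3 : c = c' := by omega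
  rw [e1, e2, e3]

theorem pairP_of_clique (h : IsCliqueGraph (splitG (Nt L))) : PairP L := by
  obtain ⟨W, F, hF⟩ := rs_of_cliqueGraph h
  obtain ⟨R, hR1, hR2⟩ := hF.pairs (Nt_card hL) (Nt_inj hL) (fun s => by
    obtain ⟨t', ht', d, hd, h1, h2, h3⟩ := hL.2.1 s.1 s.2
    exact ⟨⟨d, mem_ent.2 ⟨t', ht', hd⟩⟩, fun hm => by
      rcases mem_Nt.1 hm with h | h | h
      · exact h1 h
      · exact h2 h
      · exact h3 h⟩)
  refine ⟨fun x y => ∃ (hx : x ∈ ent L) (hy : y ∈ ent L), R ⟨x, hx⟩ ⟨y, hy⟩, fun t ht => ?_⟩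
  obtain ⟨l1, l2⟩ := hL.1 t ht
  obtain ⟨a, b, c, hab, hbc, hac, hN, r1, r2, r3⟩ := hR2 ⟨t, ht⟩
  have p1 : t.1 ∈ ent L := mem_ent.2 ⟨t, ht, Or.inl rfl⟩
  have p2 : t.2.1 ∈ ent L := mem_ent.2 ⟨t, ht, Or.inr (Or.inl rfl)⟩
  have p3 : t.2.2 ∈ ent L := mem_ent.2 ⟨t, ht, Or.inr (Or.inr rfl)⟩
  have c1 : ∀ {x y : ℕ} (hx : x ∈ ent L) (hy : y ∈ ent L),
      (∃ (hx : x ∈ ent L) (hy : y ∈ ent L), R ⟨x, hx⟩ ⟨y, hy⟩) ↔ R ⟨x, hx⟩ ⟨y, hy⟩ :=
    fun hx hy => ⟨fun ⟨_, _, h⟩ => h, fun h => ⟨hx, hy, h⟩⟩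
  have ha : a ∈ Nt L ⟨t, ht⟩ := by rw [hN]; simp
  have hb : b ∈ Nt L ⟨t, ht⟩ := by rw [hN]; simp
  have hc : c ∈ Nt L ⟨t, ht⟩ := by rw [hN]; simp
  have r1' := hR1 _ _ r1
  have r2' : ¬ R c b := fun h => r2 (hR1 _ _ h)
  have r3' : ¬ R c a := fun h => r3 (hR1 _ _ h)
  have hs : ∀ x y, R x y ↔ R y x := fun x y => ⟨hR1 x y, hR1 y x⟩
  simp only [c1 p1 p2, c1 p2 p3, c1 p1 p3, X1]
  have e1 : a = ⟨t.1, p1⟩ ∨ a = ⟨t.2.1, p2⟩ ∨ a = ⟨t.2.2, p3⟩ := by
    rcases mem_Nt.1 ha with h | h | h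
    · exact Or.inl (Subtype.ext h)
    · exact Or.inr (Or.inl (Subtype.ext h))
    · exact Or.inr (Or.inr (Subtype.ext h))
  have e2 : b = ⟨t.1, p1⟩ ∨ b = ⟨t.2.1, p2⟩ ∨ b = ⟨t.2.2, p3⟩ := by
    rcases mem_Nt.1 hb with h | h | h
    · exact Or.inl (Subtype.ext h)
    · exact Or.inr (Or.inl (Subtype.ext h))
    · exact Or.inr (Or.inr (Subtype.ext h))
  have e3 : c = ⟨t.1, p1⟩ ∨ c = ⟨t.2.1, p2⟩ ∨ c = ⟨t.2.2, p3⟩ := by
    rcases mem_Nt.1 hc with h | h | h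
    · exact Or.inl (Subtype.ext h)
    · exact Or.inr (Or.inl (Subtype.ext h))
    · exact Or.inr (Or.inr (Subtype.ext h))
  generalize (⟨t.1, p1⟩ : Kt L) = A at *
  generalize (⟨t.2.1, p2⟩ : Kt L) = B at *
  generalize (⟨t.2.2, p3⟩ : Kt L) = C at *
  rcases e1 with rfl | rfl | rfl <;> rcases e2 with rfl | rfl | rfl <;>
    rcases e3 with rfl | rfl | rfl <;> first
      | exact absurd rfl hab
      | exact absurd rfl hbc
      | exact absurd rfl hac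
      | (simp only [r1, r1', r2, r2', r3, r3']; tauto)

theorem clique_of_pairP (h : PairP L) : IsCliqueGraph (splitG (Nt L)) := by
  obtain ⟨R0, hR0⟩ := h
  obtain ⟨t0, ht0⟩ := List.exists_mem_of_ne_nil L hL.2.2.1
  haveI : Nonempty (Kt L) := ⟨⟨t0.1, mem_ent.2 ⟨t0, ht0, Or.inl rfl⟩⟩⟩
  have hsym : ∀ x y : ℕ, R0 (min x y) (max x y) ↔ R0 (min y x) (max y x) := by
    intro x y; rw [min_comm, max_comm]
  refine cliqueGraph_of_pairs (fun x y : Kt L => R0 (min x.1 y.1) (max x.1 y.1))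
    (fun x y h => (hsym _ _).1 h) ?_ ?_
  · rintro ⟨t, ht⟩
    obtain ⟨l1, l2⟩ := hL.1 t ht
    have l3 := l1.trans l2
    have hx := hR0 t ht
    set A : Kt L := ⟨t.1, mem_ent.2 ⟨_, ht, Or.inl rfl⟩⟩ with hA
    set B : Kt L := ⟨t.2.1, mem_ent.2 ⟨_, ht, Or.inr (Or.inl rfl)⟩⟩ with hB
    set C : Kt L := ⟨t.2.2, mem_ent.2 ⟨_, ht, Or.inr (Or.inr rfl)⟩⟩ with hC
    have nAB : A ≠ B := fun e => by have := congrArg Subtype.val e; simp only [hA, hB] at this; omega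
    have nBC : B ≠ C := fun e => by have := congrArg Subtype.val e; simp only [hB, hC] at this; omega
    have nAC : A ≠ C := fun e => by have := congrArg Subtype.val e; simp only [hA, hC] at this; omega
    have hN : Nt L ⟨t, ht⟩ = {A, B, C} := rfl
    have m1 : min t.1 t.2.1 = t.1 := min_eq_left l1.le
    have m2 : max t.1 t.2.1 = t.2.1 := max_eq_right l1.le
    have m3 : min t.2.1 t.2.2 = t.2.1 := min_eq_left l2.le
    have m4 : max t.2.1 t.2.2 = t.2.2 := max_eq_right l2.le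
    have m5 : min t.1 t.2.2 = t.1 := min_eq_left l3.le
    have m6 : max t.1 t.2.2 = t.2.2 := max_eq_right l3.le
    have m1' : min t.2.1 t.1 = t.1 := min_eq_right l1.le
    have m2' : max t.2.1 t.1 = t.2.1 := max_eq_left l1.le
    have m3' : min t.2.2 t.2.1 = t.2.1 := min_eq_right l2.le
    have m4' : max t.2.2 t.2.1 = t.2.2 := max_eq_left l2.le
    have m5' : min t.2.2 t.1 = t.1 := min_eq_right l3.le
    have m6' : max t.2.2 t.1 = t.2.2 := max_eq_left l3.le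
    rcases hx with ⟨x1, x2, x3⟩ | ⟨x1, x2, x3⟩ | ⟨x1, x2, x3⟩
    · refine ⟨A, B, C, nAB, nBC, nAC, hN, ?_, ?_, ?_⟩
      · change R0 (min t.1 t.2.1) (max t.1 t.2.1); rw [m1, m2]; exact x1
      · change ¬ R0 (min t.2.1 t.2.2) (max t.2.1 t.2.2); rw [m3, m4]; exact x2
      · change ¬ R0 (min t.1 t.2.2) (max t.1 t.2.2); rw [m5, m6]; exact x3
    · refine ⟨B, C, A, nBC, nAC.symm, nAB.symm, ?_, ?_, ?_, ?_⟩
      · rw [hN]; ext x; simp only [mem_insert, mem_singleton]; tauto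
      · change R0 (min t.2.1 t.2.2) (max t.2.1 t.2.2); rw [m3, m4]; exact x2
      · change ¬ R0 (min t.2.2 t.1) (max t.2.2 t.1); rw [m5', m6']; exact x3
      · change ¬ R0 (min t.2.1 t.1) (max t.2.1 t.1); rw [m1', m2']; exact x1
    · refine ⟨A, C, B, nAC, nBC.symm, nAB, ?_, ?_, ?_, ?_⟩
      · rw [hN]; ext x; simp only [mem_insert, mem_singleton]; tauto
      · change R0 (min t.1 t.2.2) (max t.1 t.2.2); rw [m5, m6]; exact x3
      · change ¬ R0 (min t.2.2 t.2.1) (max t.2.2 t.2.1); rw [m3', m4']; exact x2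
      · change ¬ R0 (min t.1 t.2.1) (max t.1 t.2.1); rw [m1, m2]; exact x1
  · -- shadows
    have hsh : ∀ x y : Kt L, (∃ s, x ∈ Nt L s ∧ y ∈ Nt L s) → Sh L x.1 y.1 := by
      rintro x y ⟨s, h1, h2⟩
      exact ⟨s.1, s.2, mem_Nt.1 h1, mem_Nt.1 h2⟩
    have hshs : ∀ x y : ℕ, Sh L x y → Sh L y x := by
      rintro x y ⟨t, h1, h2, h3⟩
      exact ⟨t, h1, h3, h2⟩
    have key : ∀ x y z : Kt L, x.1 < y.1 → y.1 < z.1 → Sh L x.1 y.1 → Sh L y.1 z.1 →
        Sh L x.1 z.1 → ∃ s, Nt L s = {x, y, z} := by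
      intro x y z h1 h2 h3 h4 h5
      refine ⟨⟨_, hL.2.2.2 x.1 y.1 z.1 h1 h2 h3 h4 h5⟩, ?_⟩
      rfl
    intro x y z hxy hyz hxz s1 s2 s3
    have t1 := hsh _ _ s1
    have t2 := hsh _ _ s2
    have t3 := hsh _ _ s3
    have u1 := hshs _ _ t1
    have u2 := hshs _ _ t2
    have u3 := hshs _ _ t3
    have v1 : x.1 ≠ y.1 := fun e => hxy (Subtype.ext e)
    have v2 : y.1 ≠ z.1 := fun e => hyz (Subtype.ext e)
    have v3 : x.1 ≠ z.1 := fun e => hxz (Subtype.ext e)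
    have perm : ∀ {s : St L} {a b c : Kt L}, Nt L s = {a, b, c} →
        (∀ w, (w = a ∨ w = b ∨ w = c) ↔ (w = x ∨ w = y ∨ w = z)) → Nt L s = {x, y, z} := by
      intro s a b c h1 h2
      rw [h1]; ext w; simp only [mem_insert, mem_singleton]; exact h2 w
    rcases lt_or_gt_of_ne v1 with a1 | a1 <;> rcases lt_or_gt_of_ne v2 with a2 | a2 <;>
      rcases lt_or_gt_of_ne v3 with a3 | a3
    · exact key x y z a1 a2 t1 t2 t3
    · omega
    · obtain ⟨s, hs⟩ := key x z y a3 a2 t3 u2 t1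
      exact ⟨s, perm hs fun w => by tauto⟩
    · obtain ⟨s, hs⟩ := key z x y a3 a1 u3 t1 u2
      exact ⟨s, perm hs fun w => by tauto⟩
    · obtain ⟨s, hs⟩ := key y x z a1 a3 u1 t3 t2
      exact ⟨s, perm hs fun w => by tauto⟩
    · obtain ⟨s, hs⟩ := key y z x a2 a3 t2 u3 u1
      exact ⟨s, perm hs fun w => by tauto⟩
    · omega
    · obtain ⟨s, hs⟩ := key z y x a2 a1 u2 u1 u3
      exact ⟨s, perm hs fun w => by tauto⟩

theorem clique_iff : IsCliqueGraph (splitG (Nt L)) ↔ PairP L :=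
  ⟨pairP_of_clique hL, clique_of_pairP hL⟩

end

/-! ### Lists -/

/-- The name of a triple. -/
noncomputable def nm (L : TLs) (t : ℕ × ℕ × ℕ) : ℕ := 2 * index L t + 1

/-- The clique side. -/
def KL (L : TLs) : List ℕ := (ent L).map fun n => 2 * n

/-- The stable side. -/
noncomputable def SL (L : TLs) : List ℕ := L.map fun t => nm L t

/-- The edges. -/
noncomputable def EL (L : TLs) : List (ℕ × ℕ) :=
  ((KL L).flatMap fun a => (KL L).map fun b => (a, b)) ++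
  L.flatMap fun t => [(nm L t, 2 * t.1), (nm L t, 2 * t.2.1), (nm L t, 2 * t.2.2)]

/-- The instance. -/
noncomputable def red (L : TLs) : LG × (List ℕ × List ℕ) :=
  ((KL L ++ SL L, EL L), (KL L, SL L))

theorem mem_KL {L : TLs} {v : ℕ} : v ∈ KL L ↔ ∃ n : Kt L, v = 2 * n.1 := by
  unfold KL
  rw [List.mem_map]
  constructor
  · rintro ⟨n, hn, rfl⟩; exact ⟨⟨n, hn⟩, rfl⟩
  · rintro ⟨n, rfl⟩; exact ⟨n.1, n.2, rfl⟩

theorem mem_SL {L : TLs} {v : ℕ} : v ∈ SL L ↔ ∃ t : St L, v = nm L t.1 := by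
  unfold SL
  rw [List.mem_map]
  constructor
  · rintro ⟨t, ht, rfl⟩; exact ⟨⟨t, ht⟩, rfl⟩
  · rintro ⟨t, rfl⟩; exact ⟨t.1, t.2, rfl⟩

theorem nm_inj {L : TLs} {t t' : St L} (h : nm L t.1 = nm L t'.1) : t = t' := by
  unfold nm at h
  exact Subtype.ext (index_inj t.2 t'.2 (by omega))

/-- The name of a vertex. -/
noncomputable def cd (L : TLs) : Kt L ⊕ St L → ℕ
  | Sum.inl n => 2 * n.1
  | Sum.inr t => nm L t.1

theorem cd_inj (L : TLs) : Function.Injective (cd L) := by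
  rintro (n | t) (n' | t') h
  · simp only [cd] at h
    rw [Subtype.ext (by omega : n.1 = n'.1)]
  · simp only [cd, nm] at h; omega
  · simp only [cd, nm] at h; omega
  · simp only [cd] at h
    rw [nm_inj h]

theorem cd_mem (L : TLs) (x : Kt L ⊕ St L) : cd L x ∈ (red L).1.1 := by
  change _ ∈ KL L ++ SL L
  rw [List.mem_append]
  rcases x with n | t
  · exact Or.inl (mem_KL.2 ⟨n, rfl⟩)
  · exact Or.inr (mem_SL.2 ⟨t, rfl⟩)

theorem mem_EL {L : TLs} {e : ℕ × ℕ} : e ∈ EL L ↔ (∃ n n' : Kt L, e = (2 * n.1, 2 * n'.1)) ∨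
    ∃ (t : St L) (n : Kt L), n ∈ Nt L t ∧ e = (nm L t.1, 2 * n.1) := by
  unfold EL
  rw [List.mem_append, List.mem_flatMap, List.mem_flatMap]
  constructor
  · rintro (⟨a, ha, h⟩ | ⟨t, ht, h⟩)
    · rw [List.mem_map] at h
      obtain ⟨b, hb, rfl⟩ := h
      obtain ⟨n, rfl⟩ := mem_KL.1 ha
      obtain ⟨n', rfl⟩ := mem_KL.1 hb
      exact Or.inl ⟨n, n', rfl⟩
    · right
      simp only [List.mem_cons, List.not_mem_nil, or_false] at h
      rcases h with rfl | rfl | rfl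
      · exact ⟨⟨t, ht⟩, ⟨t.1, mem_ent.2 ⟨_, ht, Or.inl rfl⟩⟩, mem_Nt.2 (Or.inl rfl), rfl⟩
      · exact ⟨⟨t, ht⟩, ⟨t.2.1, mem_ent.2 ⟨_, ht, Or.inr (Or.inl rfl)⟩⟩,
          mem_Nt.2 (Or.inr (Or.inl rfl)), rfl⟩
      · exact ⟨⟨t, ht⟩, ⟨t.2.2, mem_ent.2 ⟨_, ht, Or.inr (Or.inr rfl)⟩⟩,
          mem_Nt.2 (Or.inr (Or.inr rfl)), rfl⟩
  · rintro (⟨n, n', rfl⟩ | ⟨t, n, hn, rfl⟩)
    · exact Or.inl ⟨_, mem_KL.2 ⟨n, rfl⟩, List.mem_map.2 ⟨_, mem_KL.2 ⟨n', rfl⟩, rfl⟩⟩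
    · right
      refine ⟨t.1, t.2, ?_⟩
      simp only [List.mem_cons, List.not_mem_nil, or_false]
      rcases mem_Nt.1 hn with h | h | h
      · left; rw [h]
      · right; left; rw [h]
      · right; right; rw [h]

/-- The isomorphism. -/
noncomputable def isoG (L : TLs) : splitG (Nt L) ≃g ST.gr (red L).1 where
  toEquiv := Equiv.ofBijective (fun x => ⟨cd L x, cd_mem L x⟩) ⟨fun u v h =>
    cd_inj L (congrArg Subtype.val h), by
      rintro ⟨v, hv⟩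
      have hv' : v ∈ KL L ++ SL L := hv
      rw [List.mem_append] at hv'
      rcases hv' with h | h
      · obtain ⟨n, rfl⟩ := mem_KL.1 h
        exact ⟨Sum.inl n, rfl⟩
      · obtain ⟨t, rfl⟩ := mem_SL.1 h
        exact ⟨Sum.inr t, rfl⟩⟩
  map_rel_iff' := by
    intro x y
    simp only [Equiv.ofBijective_apply]
    have hE : ∀ x y, (cd L x, cd L y) ∈ (red L).1.2 ↔
        ((∃ n n', x = Sum.inl n ∧ y = Sum.inl n') ∨
          ∃ t n, n ∈ Nt L t ∧ x = Sum.inr t ∧ y = Sum.inl n) := by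
      intro x y
      change _ ∈ EL L ↔ _
      rw [mem_EL]
      constructor
      · rintro (⟨n, n', h⟩ | ⟨t, n, hn, h⟩)
        · simp only [Prod.mk.injEq] at h
          exact Or.inl ⟨n, n', cd_inj L h.1, cd_inj L h.2⟩
        · simp only [Prod.mk.injEq] at h
          exact Or.inr ⟨t, n, hn, cd_inj L h.1, cd_inj L h.2⟩
      · rintro (⟨n, n', rfl, rfl⟩ | ⟨t, n, hn, rfl, rfl⟩)
        · exact Or.inl ⟨n, n', rfl⟩
        · exact Or.inr ⟨t, n, hn, rfl⟩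
    constructor
    · rintro ⟨hne, h⟩
      have hne' : x ≠ y := fun e => hne (by rw [e])
      rcases h with h | h
      · rcases (hE x y).1 h with ⟨n, n', rfl, rfl⟩ | ⟨t, n, hn, rfl, rfl⟩
        · exact fun e => hne' (by rw [e])
        · exact hn
      · rcases (hE y x).1 h with ⟨n, n', rfl, rfl⟩ | ⟨t, n, hn, rfl, rfl⟩
        · exact fun e => hne' (by rw [e])
        · exact hn
    · intro h
      refine ⟨fun e => h.ne (cd_inj L (congrArg Subtype.val e)), ?_⟩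
      rcases x with n | t <;> rcases y with n' | t'
      · exact Or.inl ((hE _ _).2 (Or.inl ⟨n, n', rfl, rfl⟩))
      · exact Or.inr ((hE _ _).2 (Or.inr ⟨t', n, h, rfl, rfl⟩))
      · exact Or.inl ((hE _ _).2 (Or.inr ⟨t, n', h, rfl, rfl⟩))
      · exact absurd h id

theorem nbr_card {L : TLs} (hL : PrT L) (t : St L) :
    ((splitG (Nt L)).neighborSet (Sum.inr t)).ncard = 3 := by
  have : (splitG (Nt L)).neighborSet (Sum.inr t) = Sum.inl '' (Nt L t : Set (Kt L)) := by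
    ext x
    rw [SimpleGraph.mem_neighborSet, Set.mem_image]
    constructor
    · intro h
      rcases x with n | t'
      · exact ⟨n, h, rfl⟩
      · exact absurd h id
    · rintro ⟨n, hn, rfl⟩; exact hn
  rw [this, Set.ncard_image_of_injective _ Sum.inl_injective, Set.ncard_coe_finset, Nt_card hL]

end Pool.Agent.V11256.SC
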