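import Mathlib

/-!
# Clique graphs and the theorem of Roberts and Spencer
-/

set_option autoImplicit false
set_option linter.unusedSectionVars false
set_option linter.unusedVariables false

namespace Pool.Agent.V11256.SC

/-- The cliques of a graph: the maximal complete sets of vertices. -/
def Clq {W : Type*} (H : SimpleGraph W) : Type _ := {Q : Set W // Maximal (fun Q => H.IsClique Q) Q}

/-- The clique graph: the intersection graph of the cliques. -/
def cliqueGraph {W : Type*} (H : SimpleGraph W) : SimpleGraph (Clq H) where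
  Adj Q Q' := Q ≠ Q' ∧ (Q.1 ∩ Q'.1).Nonempty
  symm := ⟨fun Q Q' h => ⟨h.1.symm, by rw [Set.inter_comm]; exact h.2⟩⟩
  loopless := ⟨fun Q h => h.1 rfl⟩

/-- `G` is a clique graph: it is isomorphic to the clique graph of a (finite, nonempty) graph. -/
def IsCliqueGraph {V : Type*} (G : SimpleGraph V) : Prop :=
  ∃ (W : Type) (_ : Finite W) (_ : Nonempty W) (H : SimpleGraph W), Nonempty (G ≃g cliqueGraph H)

/-- Roberts-Spencer families. -/
structure RS {V ι : Type*} (G : SimpleGraph V) (F : ι → Set V) : Prop where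
  complete : ∀ i, G.IsClique (F i)
  cover : ∀ u v, G.Adj u v → ∃ i, u ∈ F i ∧ v ∈ F i
  helly : ∀ J : Set ι, J.Nonempty → (∀ i ∈ J, ∀ j ∈ J, (F i ∩ F j).Nonempty) →
    ∃ v, ∀ i ∈ J, v ∈ F i

theorem exists_maximal_clique {W : Type*} [Finite W] (H : SimpleGraph W) {J : Set W}
    (hJ : H.IsClique J) : ∃ Q : Clq H, J ⊆ Q.1 := by
  obtain ⟨Q, h1, h2⟩ := Set.Finite.exists_le_maximal (s := {Q : Set W | H.IsClique Q})
    (Set.toFinite _) hJ
  exact ⟨⟨Q, h2⟩, h1⟩

theorem rs_of_cliqueGraph {V : Type*} {G : SimpleGraph V} (h : IsCliqueGraph G) :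
    ∃ (W : Type) (F : W → Set V), RS G F := by
  obtain ⟨W, hW, hN, H, ⟨e⟩⟩ := h
  refine ⟨W, fun x => {v | x ∈ (e v).1}, ?_, ?_, ?_⟩
  · intro x u hu v hv huv
    rw [← e.map_adj_iff]
    exact ⟨fun h => huv (e.injective h), ⟨x, hu, hv⟩⟩
  · intro u v huv
    obtain ⟨_, x, h1, h2⟩ := e.map_adj_iff.2 huv
    exact ⟨x, h1, h2⟩
  · intro J _ hJ
    have hcl : H.IsClique J := by
      intro x hx y hy hxy
      obtain ⟨v, h1, h2⟩ := hJ x hx y hy
      exact (e v).2.1 h1 h2 hxy
    obtain ⟨Q, hQ⟩ := exists_maximal_clique H hcl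
    refine ⟨e.symm Q, fun x hx => ?_⟩
    change x ∈ (e (e.symm Q)).1
    rw [e.apply_symm_apply]
    exact hQ hx

section

variable {V ι : Type} {G : SimpleGraph V} {F : ι → Set V}

/-- The root graph. -/
def rootG (F : ι → Set V) : SimpleGraph (ι ⊕ V) where
  Adj a b := match a, b with
    | Sum.inl i, Sum.inl j => i ≠ j ∧ (F i ∩ F j).Nonempty
    | Sum.inl i, Sum.inr v => v ∈ F i
    | Sum.inr v, Sum.inl i => v ∈ F i
    | Sum.inr _, Sum.inr _ => False
  symm := ⟨by
    rintro (i | v) (j | w) h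
    · exact ⟨h.1.symm, by rw [Set.inter_comm]; exact h.2⟩
    · exact h
    · exact h
    · exact h⟩
  loopless := ⟨by
    rintro (i | v) h
    · exact h.1 rfl
    · exact h⟩

/-- The clique of a vertex. -/
def Qv (F : ι → Set V) (v : V) : Set (ι ⊕ V) := {a | a = Sum.inr v ∨ ∃ i, v ∈ F i ∧ a = Sum.inl i}

theorem Qv_clique (F : ι → Set V) (v : V) : (rootG F).IsClique (Qv F v) := by
  rintro a (rfl | ⟨i, hi, rfl⟩) b (rfl | ⟨j, hj, rfl⟩) hab
  · exact absurd rfl hab
  · exact hj
  · exact hi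
  · exact ⟨fun h => hab (by rw [h]), ⟨v, hi, hj⟩⟩

theorem sub_Qv (F : ι → Set V) {v : V} {Q : Set (ι ⊕ V)} (hQ : (rootG F).IsClique Q)
    (hv : Sum.inr v ∈ Q) : Q ⊆ Qv F v := by
  intro a ha
  rcases a with i | w
  · exact Or.inr ⟨i, hQ hv ha (by simp), rfl⟩
  · by_cases h : w = v
    · subst h; exact Or.inl rfl
    · exact absurd (hQ ha hv (fun e => h (Sum.inr_injective e))) id

theorem Qv_maximal (F : ι → Set V) (v : V) : Maximal (fun Q => (rootG F).IsClique Q) (Qv F v) :=
  ⟨Qv_clique F v, fun Q hQ hsub => sub_Qv F hQ (hsub (Or.inl rfl))⟩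

theorem cliqueGraph_of_rs [Finite V] [Nonempty V] [Finite ι] (h : RS G F)
    (hne : ∀ i, (F i).Nonempty) : IsCliqueGraph G := by
  refine ⟨ι ⊕ V, inferInstance, inferInstance, rootG F, ⟨⟨Equiv.ofBijective
    (fun v => (⟨Qv F v, Qv_maximal F v⟩ : Clq (rootG F))) ⟨?_, ?_⟩, ?_⟩⟩⟩
  · intro v w hvw
    have h1 : Qv F v = Qv F w := congrArg Subtype.val hvw
    have h2 : (Sum.inr v : ι ⊕ V) ∈ Qv F w := by rw [← h1]; exact Or.inl rfl
    rcases h2 with h2 | ⟨i, _, h2⟩
    · exact Sum.inr_injective h2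
    · simp at h2
  · rintro ⟨Q, hQ⟩
    have key : ∃ v, Sum.inr v ∈ Q := by
      by_contra hn
      push Not at hn
      set J : Set ι := {i | Sum.inl i ∈ Q} with hJ
      have hv : ∃ v, ∀ i ∈ J, v ∈ F i := by
        rcases J.eq_empty_or_nonempty with h0 | h0
        · obtain ⟨v⟩ := (inferInstance : Nonempty V)
          exact ⟨v, fun i hi => by rw [h0] at hi; exact absurd hi (Set.notMem_empty _)⟩
        · refine h.helly J h0 fun i hi j hj => ?_
          by_cases hij : i = j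
          · subst hij; rw [Set.inter_self]; exact hne i
          · exact (hQ.1 hi hj (fun e => hij (Sum.inl_injective e))).2
      obtain ⟨v, hv⟩ := hv
      have h1 : Q ⊆ Qv F v := by
        intro a ha
        rcases a with i | w
        · exact Or.inr ⟨i, hv i ha, rfl⟩
        · exact absurd ha (hn w)
      exact hn v (hQ.2 (Qv_clique F v) h1 (Or.inl rfl))
    obtain ⟨v, hv⟩ := key
    refine ⟨v, Subtype.ext ?_⟩
    have h1 := sub_Qv F hQ.1 hv
    exact Set.Subset.antisymm (hQ.2 (Qv_clique F v) h1) h1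
  · intro v w
    simp only [Equiv.ofBijective_apply]
    constructor
    · rintro ⟨h1, a, h2, h3⟩
      have hvw : v ≠ w := fun e => h1 (by rw [e])
      rcases h2 with rfl | ⟨i, hi, rfl⟩
      · rcases h3 with h3 | ⟨j, _, h3⟩
        · exact absurd (Sum.inr_injective h3) hvw
        · simp at h3
      · rcases h3 with h3 | ⟨j, hj, h3⟩
        · simp at h3
        · have := Sum.inl_injective h3
          subst this
          exact h.complete i hi hj hvw
    · intro hvw
      obtain ⟨i, h1, h2⟩ := h.cover v w hvw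
      refine ⟨fun e => hvw.ne ?_, Sum.inl i, Or.inr ⟨i, h1, rfl⟩, Or.inr ⟨i, h2, rfl⟩⟩
      have h3 : Qv F v = Qv F w := congrArg Subtype.val e
      have h4 : (Sum.inr v : ι ⊕ V) ∈ Qv F w := by rw [← h3]; exact Or.inl rfl
      rcases h4 with h4 | ⟨i, _, h4⟩
      · exact Sum.inr_injective h4
      · simp at h4

end

theorem IsCliqueGraph.of_iso {V V' : Type*} {G : SimpleGraph V} {G' : SimpleGraph V'}
    (e : G ≃g G') (h : IsCliqueGraph G) : IsCliqueGraph G' := by
  obtain ⟨W, h1, h2, H, ⟨f⟩⟩ := h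
  exact ⟨W, h1, h2, H, ⟨e.symm.trans f⟩⟩

end Pool.Agent.V11256.SC
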