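import Pool.Agent.V11256.SC.RS

/-!
# Clique graphs among split graphs with stable side of degree three
-/

set_option autoImplicit false
set_option linter.unusedSectionVars false
set_option linter.unusedVariables false

namespace Pool.Agent.V11256.SC

open Finset

variable {K S : Type} [DecidableEq K] (N : S → Finset K)

/-- The split graph. -/
def splitG : SimpleGraph (K ⊕ S) where
  Adj a b := match a, b with
    | Sum.inl a, Sum.inl b => a ≠ b
    | Sum.inl a, Sum.inr s => a ∈ N s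
    | Sum.inr s, Sum.inl a => a ∈ N s
    | Sum.inr _, Sum.inr _ => False
  symm := ⟨by
    rintro (i | v) (j | w) h
    · exact Ne.symm h
    · exact h
    · exact h
    · exact h⟩
  loopless := ⟨by
    rintro (i | v) h
    · exact h rfl
    · exact h⟩

section up

variable {N} {ι : Type} {F : ι → Set (K ⊕ S)}

theorem RS.mem_N (h : RS (splitG N) F) {i : ι} {a : K} {s : S} (ha : Sum.inl a ∈ F i)
    (hs : Sum.inr s ∈ F i) : a ∈ N s := h.complete i ha hs (by simp)

theorem RS.inr_eq (h : RS (splitG N) F) {i : ι} {s s' : S} (hs : Sum.inr s ∈ F i)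
    (hs' : Sum.inr s' ∈ F i) : s = s' := by
  by_contra hn
  exact (h.complete i hs hs' (fun e => hn (Sum.inr_injective e)) : False)

theorem RS.helly3 (h : RS (splitG N) F) {i j k : ι} {p q r : K ⊕ S} (h1 : p ∈ F i) (h2 : p ∈ F j)
    (h3 : q ∈ F j) (h4 : q ∈ F k) (h5 : r ∈ F i) (h6 : r ∈ F k) :
    ∃ z, z ∈ F i ∧ z ∈ F j ∧ z ∈ F k := by
  obtain ⟨v, hv⟩ := h.helly {i, j, k} ⟨i, by simp⟩ (by
    intro a ha b hb
    simp only [Set.mem_insert_iff, Set.mem_singleton_iff] at ha hb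
    rcases ha with rfl | rfl | rfl <;> rcases hb with rfl | rfl | rfl
    · exact ⟨p, h1, h1⟩
    · exact ⟨p, h1, h2⟩
    · exact ⟨r, h5, h6⟩
    · exact ⟨p, h2, h1⟩
    · exact ⟨p, h2, h2⟩
    · exact ⟨q, h3, h4⟩
    · exact ⟨r, h6, h5⟩
    · exact ⟨q, h4, h3⟩
    · exact ⟨q, h4, h4⟩)
  exact ⟨v, hv i (by simp), hv j (by simp), hv k (by simp)⟩

theorem RS.helly4 (h : RS (splitG N) F) {i j k l : ι} (h1 : (F i ∩ F j).Nonempty)
    (h2 : (F i ∩ F k).Nonempty) (h3 : (F i ∩ F l).Nonempty) (h4 : (F j ∩ F k).Nonempty)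
    (h5 : (F j ∩ F l).Nonempty) (h6 : (F k ∩ F l).Nonempty) :
    ∃ z, z ∈ F i ∧ z ∈ F j ∧ z ∈ F k ∧ z ∈ F l := by
  have sw : ∀ {a b : ι}, (F a ∩ F b).Nonempty → (F b ∩ F a).Nonempty := by
    intro a b hab; rw [Set.inter_comm]; exact hab
  have sl : ∀ {a b : ι}, (F a ∩ F b).Nonempty → (F a ∩ F a).Nonempty := by
    rintro a b ⟨x, hx, _⟩; exact ⟨x, hx, hx⟩
  obtain ⟨v, hv⟩ := h.helly {i, j, k, l} ⟨i, by simp⟩ (by
    intro a ha b hb
    simp only [Set.mem_insert_iff, Set.mem_singleton_iff] at ha hb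
    rcases ha with rfl | rfl | rfl | rfl <;> rcases hb with rfl | rfl | rfl | rfl
    · exact sl h1
    · exact h1
    · exact h2
    · exact h3
    · exact sw h1
    · exact sl h4
    · exact h4
    · exact h5
    · exact sw h2
    · exact sw h4
    · exact sl h6
    · exact h6
    · exact sw h3
    · exact sw h5
    · exact sw h6
    · exact sl (sw h6))
  exact ⟨v, hv i (by simp), hv j (by simp), hv k (by simp), hv l (by simp)⟩

/-- Contributions. -/
def Con (F : ι → Set (K ⊕ S)) (s : S) (a b : K) : Prop :=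
  ∃ i, Sum.inr s ∈ F i ∧ Sum.inl a ∈ F i ∧ Sum.inl b ∈ F i

theorem Con.symm {s : S} {a b : K} (h : Con F s a b) : Con F s b a := by
  obtain ⟨i, h1, h2, h3⟩ := h
  exact ⟨i, h1, h3, h2⟩

theorem mem3 {a b c x : K} {s : S} (hN : N s = {a, b, c}) (hx : x ∈ N s) :
    x = a ∨ x = b ∨ x = c := by
  rw [hN] at hx; simpa using hx

/-- At least two pairs are contributed. -/
theorem RS.two (h : RS (splitG N) F) {s : S} {a b c : K} (hN : N s = {a, b, c}) (hab : a ≠ b)
    (hbc : b ≠ c) (hac : a ≠ c) : Con F s a c ∨ Con F s b c := by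
  by_contra hn
  push Not at hn
  obtain ⟨n1, n2⟩ := hn
  have ha : a ∈ N s := by rw [hN]; simp
  have hc : c ∈ N s := by rw [hN]; simp
  obtain ⟨A, hA1, hA2⟩ := h.cover (Sum.inr s) (Sum.inl c) hc
  obtain ⟨B, hB1, hB2⟩ := h.cover (Sum.inr s) (Sum.inl a) ha
  obtain ⟨C, hC1, hC2⟩ := h.cover (Sum.inl a) (Sum.inl c) hac
  have hCs : Sum.inr s ∉ F C := fun hs => n1 ⟨C, hs, hC1, hC2⟩
  have hBc : Sum.inl c ∉ F B := fun hs => n1 ⟨B, hB1, hB2, hs⟩
  obtain ⟨z, z1, z2, z3⟩ := h.helly3 hA1 hB1 hB2 hC1 hA2 hC2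
  rcases z with z | z
  · rcases mem3 hN (h.mem_N z1 hA1) with rfl | rfl | rfl
    · exact n1 ⟨A, hA1, z1, hA2⟩
    · exact n2 ⟨A, hA1, z1, hA2⟩
    · exact hBc z2
  · have := h.inr_eq z1 hA1
    subst this
    exact hCs z3

/-- All three pairs are contributed only by a whole member. -/
theorem RS.three (h : RS (splitG N) F) {s : S} {a b c d : K} (hN : N s = {a, b, c}) (hab : a ≠ b)
    (hbc : b ≠ c) (hac : a ≠ c) (hd : d ∉ N s) (h1 : Con F s a b) (h2 : Con F s b c)
    (h3 : Con F s a c) :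
    ∃ i, Sum.inr s ∈ F i ∧ Sum.inl a ∈ F i ∧ Sum.inl b ∈ F i ∧ Sum.inl c ∈ F i := by
  by_contra hn
  push Not at hn
  obtain ⟨A, A1, A2, A3⟩ := h1
  obtain ⟨B, B1, B2, B3⟩ := h2
  obtain ⟨C, C1, C2, C3⟩ := h3
  have nA : Sum.inl c ∉ F A := hn A A1 A2 A3
  have nB : Sum.inl a ∉ F B := fun hh => hn B B1 hh B2 B3
  have nC : Sum.inl b ∉ F C := fun hh => hn C C1 C2 hh C3
  have hda : d ≠ a := by rintro rfl; exact hd (by rw [hN]; simp)
  have hdb : d ≠ b := by rintro rfl; exact hd (by rw [hN]; simp)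
  have hdc : d ≠ c := by rintro rfl; exact hd (by rw [hN]; simp)
  obtain ⟨Da, Da1, Da2⟩ := h.cover (Sum.inl a) (Sum.inl d) (Ne.symm hda)
  obtain ⟨Db, Db1, Db2⟩ := h.cover (Sum.inl b) (Sum.inl d) (Ne.symm hdb)
  obtain ⟨Dc, Dc1, Dc2⟩ := h.cover (Sum.inl c) (Sum.inl d) (Ne.symm hdc)
  have nd : ∀ i, Sum.inl d ∈ F i → Sum.inr s ∉ F i := fun i hi hs => hd (h.mem_N hi hs)
  -- members with three vertices
  have M1 : ∃ M, Sum.inl a ∈ F M ∧ Sum.inl b ∈ F M ∧ Sum.inl d ∈ F M := by
    obtain ⟨z, z1, z2, z3⟩ := h.helly3 A2 Da1 Da2 Db2 A3 Db1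
    rcases z with z | z
    · rcases mem3 hN (h.mem_N z1 A1) with rfl | rfl | rfl
      · exact ⟨Db, z3, Db1, Db2⟩
      · exact ⟨Da, Da1, z2, Da2⟩
      · exact absurd z1 nA
    · have := h.inr_eq z1 A1
      subst this
      exact absurd z2 (nd _ Da2)
  have M2 : ∃ M, Sum.inl b ∈ F M ∧ Sum.inl c ∈ F M ∧ Sum.inl d ∈ F M := by
    obtain ⟨z, z1, z2, z3⟩ := h.helly3 B2 Db1 Db2 Dc2 B3 Dc1
    rcases z with z | z
    · rcases mem3 hN (h.mem_N z1 B1) with rfl | rfl | rfl
      · exact absurd z1 nB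
      · exact ⟨Dc, z3, Dc1, Dc2⟩
      · exact ⟨Db, Db1, z2, Db2⟩
    · have := h.inr_eq z1 B1
      subst this
      exact absurd z2 (nd _ Db2)
  obtain ⟨M1, m1, m2, m3⟩ := M1
  obtain ⟨M2, m4, m5, m6⟩ := M2
  have M : ∃ M, Sum.inl a ∈ F M ∧ Sum.inl b ∈ F M ∧ Sum.inl c ∈ F M ∧ Sum.inl d ∈ F M := by
    obtain ⟨z, z1, z2, z3⟩ := h.helly3 C2 m1 m3 m6 C3 m5
    rcases z with z | z
    · rcases mem3 hN (h.mem_N z1 C1) with rfl | rfl | rfl
      · exact ⟨M2, z3, m4, m5, m6⟩
      · exact absurd z1 nC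
      · exact ⟨M1, m1, m2, z2, m3⟩
    · have := h.inr_eq z1 C1
      subst this
      exact absurd z2 (nd _ m3)
  obtain ⟨M, q1, q2, q3, q4⟩ := M
  obtain ⟨z, z1, z2, z3, z4⟩ := h.helly4 (i := A) (j := B) (k := C) (l := M)
    ⟨_, A1, B1⟩ ⟨_, A1, C1⟩ ⟨_, A2, q1⟩ ⟨_, B1, C1⟩ ⟨_, B2, q2⟩ ⟨_, C2, q1⟩
  rcases z with z | z
  · rcases mem3 hN (h.mem_N z1 A1) with rfl | rfl | rfl
    · exact nB z2
    · exact nC z3
    · exact nA z1
  · have := h.inr_eq z1 A1
    subst this
    exact nd _ q4 z4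

/-- Two vertices with the same neighbours. -/
theorem eq_of_sub (hcard : ∀ s, (N s).card = 3) (hinj : Function.Injective N) {s s' : S}
    {a b c : K} (hN : N s = {a, b, c}) (ha : a ∈ N s') (hb : b ∈ N s') (hc : c ∈ N s') :
    s' = s := by
  apply hinj
  symm
  apply eq_of_subset_of_card_le
  · rw [hN]
    intro x hx
    simp only [mem_insert, mem_singleton] at hx
    rcases hx with rfl | rfl | rfl <;> assumption
  · rw [hcard, hcard]

theorem RS.pick (h : RS (splitG N) F) (hcard : ∀ s, (N s).card = 3)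
    (hinj : Function.Injective N) (hd : ∀ s, ∃ d, d ∉ N s) (s : S) :
    ∃ a b c : K, a ≠ b ∧ b ≠ c ∧ a ≠ c ∧ N s = {a, b, c} ∧ (∀ s', s' ≠ s → ¬ Con F s' a b) ∧
      Con F s b c ∧ Con F s a c := by
  obtain ⟨a, b, c, hab, hac, hbc, hN⟩ := card_eq_three.1 (hcard s)
  obtain ⟨d, hd⟩ := hd s
  have p1 : N s = {b, c, a} := by
    rw [hN]; ext x; simp only [mem_insert, mem_singleton]; tauto
  have p2 : N s = {a, c, b} := by
    rw [hN]; ext x; simp only [mem_insert, mem_singleton]; tauto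
  -- the non-whole case, in normal form
  have nw : ∀ a b c : K, a ≠ b → b ≠ c → a ≠ c → N s = {a, b, c} → ¬ Con F s a b →
      Con F s b c → Con F s a c → ∀ s', s' ≠ s → ¬ Con F s' a b := by
    intro a b c hab hbc hac hN n1 c1 c2 s' hs' c3
    obtain ⟨A, A1, A2, A3⟩ := c1
    obtain ⟨B, B1, B2, B3⟩ := c2
    obtain ⟨C, C1, C2, C3⟩ := c3
    obtain ⟨z, z1, z2, z3⟩ := h.helly3 A1 B1 B2 C2 A2 C3
    rcases z with z | z
    · rcases mem3 hN (h.mem_N z1 A1) with rfl | rfl | rfl
      · exact n1 ⟨A, A1, z1, A2⟩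
      · exact n1 ⟨B, B1, B2, z2⟩
      · exact hs' (eq_of_sub hcard hinj hN (h.mem_N C2 C1) (h.mem_N C3 C1) (h.mem_N z3 C1))
    · have e1 := h.inr_eq z1 A1
      have e2 := h.inr_eq z3 C1
      exact hs' (e2.symm.trans e1)
  by_cases c1 : Con F s a b
  · by_cases c2 : Con F s b c
    · by_cases c3 : Con F s a c
      · -- whole
        obtain ⟨W, W1, W2, W3, W4⟩ := h.three hN hab hbc hac hd c1 c2 c3
        by_cases o1 : ∀ s', s' ≠ s → ¬ Con F s' a b
        · exact ⟨a, b, c, hab, hbc, hac, hN, o1, c2, c3⟩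
        by_cases o2 : ∀ s', s' ≠ s → ¬ Con F s' b c
        · exact ⟨b, c, a, hbc, hac.symm, hab.symm, p1, o2, c3.symm, c1.symm⟩
        by_cases o3 : ∀ s', s' ≠ s → ¬ Con F s' a c
        · exact ⟨a, c, b, hac, hbc.symm, hab, p2, o3, c2.symm, c1⟩
        push Not at o1 o2 o3
        obtain ⟨s1, n1, A, A1, A2, A3⟩ := o1
        obtain ⟨s2, n2, B, B1, B2, B3⟩ := o2
        obtain ⟨s3, n3, C, C1, C2, C3⟩ := o3
        obtain ⟨z, z1, z2, z3, z4⟩ := h.helly4 (i := A) (j := B) (k := C) (l := W)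
          ⟨_, A3, B2⟩ ⟨_, A2, C2⟩ ⟨_, A2, W2⟩ ⟨_, B3, C3⟩ ⟨_, B2, W3⟩ ⟨_, C2, W2⟩
        exfalso
        rcases z with z | z
        · rcases mem3 hN (h.mem_N z4 W1) with rfl | rfl | rfl
          · exact n2 (eq_of_sub hcard hinj hN (h.mem_N z2 B1) (h.mem_N B2 B1) (h.mem_N B3 B1))
          · exact n3 (eq_of_sub hcard hinj hN (h.mem_N C2 C1) (h.mem_N z3 C1) (h.mem_N C3 C1))
          · exact n1 (eq_of_sub hcard hinj hN (h.mem_N A2 A1) (h.mem_N A3 A1) (h.mem_N z1 A1))
        · exact n1 ((h.inr_eq z1 A1).symm.trans (h.inr_eq z4 W1))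
      · exact ⟨a, c, b, hac, hbc.symm, hab, p2,
          nw a c b hac hbc.symm hab p2 c3 c2.symm c1, c2.symm, c1⟩
    · have c3 : Con F s a c := (h.two hN hab hbc hac).resolve_right c2
      exact ⟨b, c, a, hbc, hac.symm, hab.symm, p1,
        nw b c a hbc hac.symm hab.symm p1 c2 c3.symm c1.symm, c3.symm, c1.symm⟩
  · have c3 : Con F s a c := by
      have := h.two (a := c) (b := b) (c := a) (by
        rw [hN]; ext x; simp only [mem_insert, mem_singleton]; tauto) hbc.symm hab.symm hac.symm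
      rcases this with t | t
      · exact t.symm
      · exact absurd t.symm c1
    have c2 : Con F s b c := by
      have := h.two (a := a) (b := c) (c := b) p2 hac hbc.symm hab
      rcases this with t | t
      · exact absurd t c1
      · exact t.symm
    exact ⟨a, b, c, hab, hbc, hac, hN, nw a b c hab hbc hac hN c1 c2 c3, c2, c3⟩

/-- From a Roberts-Spencer family to a set of pairs. -/
theorem RS.pairs (h : RS (splitG N) F) (hcard : ∀ s, (N s).card = 3)
    (hinj : Function.Injective N) (hd : ∀ s, ∃ d, d ∉ N s) :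
    ∃ R : K → K → Prop, (∀ x y, R x y → R y x) ∧ ∀ s, ∃ a b c : K, a ≠ b ∧ b ≠ c ∧ a ≠ c ∧
      N s = {a, b, c} ∧ R a b ∧ ¬ R b c ∧ ¬ R a c := by
  choose a b c hab hbc hac hN ho c1 c2 using fun s => h.pick hcard hinj hd s
  refine ⟨fun x y => ∃ s, (x = a s ∧ y = b s) ∨ (x = b s ∧ y = a s), ?_, ?_⟩
  · rintro x y ⟨s, h1 | h1⟩
    · exact ⟨s, Or.inr ⟨h1.2, h1.1⟩⟩
    · exact ⟨s, Or.inl ⟨h1.2, h1.1⟩⟩
  · intro s
    refine ⟨a s, b s, c s, hab s, hbc s, hac s, hN s, ⟨s, Or.inl ⟨rfl, rfl⟩⟩, ?_, ?_⟩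
    · rintro ⟨s', h1⟩
      by_cases hs : s' = s
      · subst hs
        rcases h1 with ⟨e1, e2⟩ | ⟨e1, e2⟩
        · exact hab s' e1.symm
        · exact hac s' e2.symm
      · rcases h1 with ⟨e1, e2⟩ | ⟨e1, e2⟩
        · exact ho s' s (Ne.symm hs) (by rw [← e1, ← e2]; exact c1 s)
        · exact ho s' s (Ne.symm hs) (by rw [← e1, ← e2]; exact (c1 s).symm)
    · rintro ⟨s', h1⟩
      by_cases hs : s' = s
      · subst hs
        rcases h1 with ⟨e1, e2⟩ | ⟨e1, e2⟩
        · exact hbc s' e2.symm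
        · exact hab s' e1
      · rcases h1 with ⟨e1, e2⟩ | ⟨e1, e2⟩
        · exact ho s' s (Ne.symm hs) (by rw [← e1, ← e2]; exact c2 s)
        · exact ho s' s (Ne.symm hs) (by rw [← e1, ← e2]; exact (c2 s).symm)

end up

section down

variable {N}

/-- From a set of pairs to a clique graph. -/
theorem cliqueGraph_of_pairs [Finite K] [Nonempty K] [Finite S] (R : K → K → Prop)
    (hR : ∀ x y, R x y → R y x)
    (h : ∀ s, ∃ a b c : K, a ≠ b ∧ b ≠ c ∧ a ≠ c ∧ N s = {a, b, c} ∧ R a b ∧ ¬ R b c ∧ ¬ R a c)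
    (hP : ∀ x y z, x ≠ y → y ≠ z → x ≠ z → (∃ s, x ∈ N s ∧ y ∈ N s) → (∃ s, y ∈ N s ∧ z ∈ N s) →
      (∃ s, x ∈ N s ∧ z ∈ N s) → ∃ s, N s = {x, y, z}) :
    IsCliqueGraph (splitG N) := by
  choose a b c hab hbc hac hN r1 r2 r3 using h
  -- end points
  set E : S × Bool → K × K := fun p => if p.2 = true then (a p.1, c p.1) else (b p.1, c p.1) with hE
  set F : Option (S × Bool) → Set (K ⊕ S) := fun o => match o with
    | none => {v | ∃ k, v = Sum.inl k}
    | some p => {v | v = Sum.inr p.1 ∨ v = Sum.inl (E p).1 ∨ v = Sum.inl (E p).2} with hF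
  have hE1 : ∀ p, (E p).1 ∈ N p.1 ∧ (E p).2 ∈ N p.1 := by
    rintro ⟨s, t⟩
    simp only [hE]
    cases t <;> simp [hN]
  have hEne : ∀ p, (E p).1 ≠ (E p).2 := by
    rintro ⟨s, t⟩
    simp only [hE]
    cases t
    · simpa using hbc s
    · simpa using hac s
  have hER : ∀ p, ¬ R (E p).1 (E p).2 := by
    rintro ⟨s, t⟩
    simp only [hE]
    cases t
    · simpa using r2 s
    · simpa using r3 s
  have hsame : ∀ s t t', (E (s, t)).2 = (E (s, t')).2 := by
    intro s t t'
    simp only [hE]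
    cases t <;> cases t' <;> simp
  have hrs : RS (splitG N) F := by
    refine ⟨?_, ?_, ?_⟩
    · rintro (_ | p) u hu v hv huv
      · obtain ⟨k, rfl⟩ := hu
        obtain ⟨k', rfl⟩ := hv
        exact fun e => huv (by rw [e])
      · rcases hu with rfl | rfl | rfl <;> rcases hv with rfl | rfl | rfl
        · exact absurd rfl huv
        · exact (hE1 p).1
        · exact (hE1 p).2
        · exact (hE1 p).1
        · exact absurd rfl huv
        · exact hEne p
        · exact (hE1 p).2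
        · exact (hEne p).symm
        · exact absurd rfl huv
    · have key : ∀ (k : K) (s : S), k ∈ N s → ∃ i, Sum.inl k ∈ F i ∧ Sum.inr s ∈ F i := by
        intro k s hk
        rw [hN s] at hk
        simp only [mem_insert, mem_singleton] at hk
        rcases hk with rfl | rfl | rfl
        · exact ⟨some (s, true), Or.inr (Or.inl (by simp [hE])), Or.inl rfl⟩
        · exact ⟨some (s, false), Or.inr (Or.inl (by simp [hE])), Or.inl rfl⟩
        · exact ⟨some (s, false), Or.inr (Or.inr (by simp [hE])), Or.inl rfl⟩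
      rintro (k | s) (k' | s') huv
      · exact ⟨none, ⟨k, rfl⟩, ⟨k', rfl⟩⟩
      · exact key k s' huv
      · obtain ⟨i, h1, h2⟩ := key k' s huv
        exact ⟨i, h2, h1⟩
      · exact absurd huv id
    · intro J hJne hJ
      -- pairs of members share a vertex in K
      have hsh : ∀ p q : S × Bool, some p ∈ J → some q ∈ J →
          (E p).1 = (E q).1 ∨ (E p).1 = (E q).2 ∨ (E p).2 = (E q).1 ∨ (E p).2 = (E q).2 := by
        intro p q hp hq
        obtain ⟨v, h1, h2⟩ := hJ _ hp _ hq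
        rcases h1 with rfl | rfl | rfl
        · rcases h2 with h2 | h2 | h2
          · have h3 : p.1 = q.1 := Sum.inr_injective h2
            right; right; right
            obtain ⟨s, t⟩ := p
            obtain ⟨s', t'⟩ := q
            simp only at h3
            subst h3
            exact hsame s t t'
          · simp at h2
          · simp at h2
        · rcases h2 with h2 | h2 | h2
          · simp at h2
          · exact Or.inl (Sum.inl_injective h2)
          · exact Or.inr (Or.inl (Sum.inl_injective h2))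
        · rcases h2 with h2 | h2 | h2
          · simp at h2
          · exact Or.inr (Or.inr (Or.inl (Sum.inl_injective h2)))
          · exact Or.inr (Or.inr (Or.inr (Sum.inl_injective h2)))
      have hfin : ∀ k : K, (∀ p : S × Bool, some p ∈ J → k = (E p).1 ∨ k = (E p).2) →
          ∃ v, ∀ i ∈ J, v ∈ F i := by
        intro k hk
        refine ⟨Sum.inl k, ?_⟩
        rintro (_ | p) hi
        · exact ⟨k, rfl⟩
        · rcases hk p hi with h | h
          · exact Or.inr (Or.inl (by rw [h]))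
          · exact Or.inr (Or.inr (by rw [h]))
      by_cases h0 : ∃ p : S × Bool, some p ∈ J
      · obtain ⟨p, hp⟩ := h0
        by_cases hx : ∀ q : S × Bool, some q ∈ J → (E p).1 = (E q).1 ∨ (E p).1 = (E q).2
        · exact hfin _ hx
        by_cases hy : ∀ q : S × Bool, some q ∈ J → (E p).2 = (E q).1 ∨ (E p).2 = (E q).2
        · exact hfin _ hy
        exfalso
        push Not at hx hy
        obtain ⟨q1, hq1, n1, n2⟩ := hx
        obtain ⟨q2, hq2, n3, n4⟩ := hy
        -- the third vertex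
        obtain ⟨z, hz1, hzne1⟩ : ∃ z, (((E q1).1 = (E p).2 ∧ (E q1).2 = z) ∨
            ((E q1).2 = (E p).2 ∧ (E q1).1 = z)) ∧ z ≠ (E p).1 := by
          rcases hsh p q1 hp hq1 with h | h | h | h
          · exact absurd h n1
          · exact absurd h n2
          · exact ⟨(E q1).2, Or.inl ⟨h.symm, rfl⟩, fun e => n2 e.symm⟩
          · exact ⟨(E q1).1, Or.inr ⟨h.symm, rfl⟩, fun e => n1 e.symm⟩
        obtain ⟨z', hz2, hzne2⟩ : ∃ z', (((E q2).1 = (E p).1 ∧ (E q2).2 = z') ∨
            ((E q2).2 = (E p).1 ∧ (E q2).1 = z')) ∧ z' ≠ (E p).2 := by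
          rcases hsh p q2 hp hq2 with h | h | h | h
          · exact ⟨(E q2).2, Or.inl ⟨h.symm, rfl⟩, fun e => n4 e.symm⟩
          · exact ⟨(E q2).1, Or.inr ⟨h.symm, rfl⟩, fun e => n3 e.symm⟩
          · exact absurd h n3
          · exact absurd h n4
        have hzz : z = z' := by
          have h12 := hsh q1 q2 hq1 hq2
          have hpne := hEne p
          rcases hz1 with ⟨e1, e2⟩ | ⟨e1, e2⟩ <;> rcases hz2 with ⟨e3, e4⟩ | ⟨e3, e4⟩ <;>
          · rw [e1, e2, e3, e4] at h12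
            rcases h12 with h | h | h | h <;>
              first
                | exact h
                | exact absurd h hpne.symm
                | exact absurd h.symm hzne2
                | exact absurd h hzne1
        subst hzz
        have hpne := hEne p
        have m1 : ∃ s, (E p).1 ∈ N s ∧ (E p).2 ∈ N s := ⟨_, hE1 p⟩
        have m2 : ∃ s, (E p).2 ∈ N s ∧ z ∈ N s := by
          rcases hz1 with ⟨e1, e2⟩ | ⟨e1, e2⟩
          · exact ⟨q1.1, by rw [← e1]; exact (hE1 q1).1, by rw [← e2]; exact (hE1 q1).2⟩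
          · exact ⟨q1.1, by rw [← e1]; exact (hE1 q1).2, by rw [← e2]; exact (hE1 q1).1⟩
        have m3 : ∃ s, (E p).1 ∈ N s ∧ z ∈ N s := by
          rcases hz2 with ⟨e1, e2⟩ | ⟨e1, e2⟩
          · exact ⟨q2.1, by rw [← e1]; exact (hE1 q2).1, by rw [← e2]; exact (hE1 q2).2⟩
          · exact ⟨q2.1, by rw [← e1]; exact (hE1 q2).2, by rw [← e2]; exact (hE1 q2).1⟩
        have R1 : ¬ R (E p).1 (E p).2 := hER p
        have R2 : ¬ R (E p).2 z := by
          have := hER q1
          rcases hz1 with ⟨e1, e2⟩ | ⟨e1, e2⟩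
          · rw [e1, e2] at this; exact this
          · rw [e1, e2] at this; exact fun h => this (hR _ _ h)
        have R3 : ¬ R (E p).1 z := by
          have := hER q2
          rcases hz2 with ⟨e1, e2⟩ | ⟨e1, e2⟩
          · rw [e1, e2] at this; exact this
          · rw [e1, e2] at this; exact fun h => this (hR _ _ h)
        obtain ⟨s, hs⟩ := hP (E p).1 (E p).2 z hpne hzne2.symm hzne1.symm m1 m2 m3
        have ha : a s ∈ N s := by rw [hN s]; simp
        have hb : b s ∈ N s := by rw [hN s]; simp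
        rw [hs] at ha hb
        simp only [mem_insert, mem_singleton] at ha hb
        have hRab := r1 s
        have hRba := hR _ _ hRab
        have hnab := hab s
        rcases ha with ha | ha | ha <;> rcases hb with hb | hb | hb <;>
          rw [ha, hb] at hRab hRba hnab <;> first
            | exact hnab rfl
            | exact R1 hRab
            | exact R1 hRba
            | exact R2 hRab
            | exact R2 hRba
            | exact R3 hRab
            | exact R3 hRba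
      · push Not at h0
        obtain ⟨k⟩ := (inferInstance : Nonempty K)
        exact hfin k fun p hp => absurd hp (h0 p)
  refine cliqueGraph_of_rs hrs ?_
  rintro (_ | p)
  · obtain ⟨k⟩ := (inferInstance : Nonempty K)
    exact ⟨Sum.inl k, k, rfl⟩
  · exact ⟨Sum.inr p.1, Or.inl rfl⟩

end down

end Pool.Agent.V11256.SC
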